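import Pool.Agent.Q287.RF.Defs

set_option autoImplicit false

/-!
# The random friend tree: combinatorics of a fixed tree
-/

open Finset
open scoped ENNReal

namespace Q287.RF

/-- Valid sequences of parents. -/
def Valid (w : ℕ → ℕ) (n : ℕ) : Prop := ∀ m, 1 ≤ m → m < n → 1 ≤ w m ∧ w m ≤ m

theorem adj_iff {w : ℕ → ℕ} {n : ℕ} (h : Valid w n) (u v : ℕ) :
    (tree w n).Adj u v ↔ ∃ m, 1 ≤ m ∧ m < n ∧ ((m + 1 = u ∧ w m = v) ∨ (m + 1 = v ∧ w m = u)) := by
  unfold tree
  rw [SimpleGraph.fromEdgeSet_adj]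
  constructor
  · rintro ⟨⟨m, h1, h2, h3⟩, -⟩
    rw [Sym2.eq_iff] at h3
    refine ⟨m, h1, h2, ?_⟩
    rcases h3 with ⟨rfl, rfl⟩ | ⟨rfl, rfl⟩
    · left; exact ⟨rfl, rfl⟩
    · right; exact ⟨rfl, rfl⟩
  · rintro ⟨m, h1, h2, h3⟩
    have h4 := (h m h1 h2).2
    refine ⟨⟨m, h1, h2, ?_⟩, ?_⟩
    · rw [Sym2.eq_iff]
      rcases h3 with ⟨rfl, rfl⟩ | ⟨rfl, rfl⟩ <;> simp
    · rcases h3 with ⟨rfl, rfl⟩ | ⟨rfl, rfl⟩ <;> omega

open Classical in
/-- Decomposition of the adjacency indicator over the edges. -/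
theorem ind_adj {w : ℕ → ℕ} {n : ℕ} (h : Valid w n) (u v : ℕ) :
    (if (tree w n).Adj u v then (1 : ℕ) else 0) =
      ∑ m ∈ Ico 1 n, ((if m + 1 = u ∧ w m = v then 1 else 0) +
        (if m + 1 = v ∧ w m = u then 1 else 0)) := by
  rw [sum_add_distrib]
  rcases lt_trichotomy u v with huv | huv | huv
  · -- `m + 1 = v`
    have h1 : ∑ m ∈ Ico 1 n, (if m + 1 = u ∧ w m = v then 1 else 0) = 0 := by
      refine sum_eq_zero fun m hm => ?_
      rw [mem_Ico] at hm
      have := (h m hm.1 hm.2).2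
      rw [if_neg]; omega
    rw [h1, zero_add]
    by_cases hc : 1 ≤ v - 1 ∧ v - 1 < n ∧ w (v - 1) = u
    · rw [if_pos]
      · rw [sum_eq_single (v - 1)]
        · rw [if_pos]; exact ⟨by omega, hc.2.2⟩
        · intro m _ hm; rw [if_neg]; omega
        · intro hm; rw [mem_Ico] at hm; omega
      · rw [adj_iff h]
        exact ⟨v - 1, hc.1, hc.2.1, Or.inr ⟨by omega, hc.2.2⟩⟩
    · rw [if_neg]
      · symm
        refine sum_eq_zero fun m hm => ?_
        rw [mem_Ico] at hm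
        rw [if_neg]
        rintro ⟨rfl, h2⟩
        exact hc ⟨by omega, by omega, by simpa using h2⟩
      · rw [adj_iff h]
        rintro ⟨m, h2, h3, h4⟩
        have := (h m h2 h3).2
        rcases h4 with ⟨rfl, rfl⟩ | ⟨rfl, rfl⟩
        · omega
        · exact hc ⟨by omega, by omega, by simp⟩
  · subst huv
    rw [if_neg (SimpleGraph.irrefl _)]
    symm
    have h1 : ∀ m ∈ Ico 1 n, ¬ (m + 1 = u ∧ w m = u) := by
      intro m hm
      rw [mem_Ico] at hm
      have := (h m hm.1 hm.2).2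
      omega
    rw [sum_eq_zero (fun m hm => if_neg (h1 m hm))]
    rfl
  · have h1 : ∑ m ∈ Ico 1 n, (if m + 1 = v ∧ w m = u then 1 else 0) = 0 := by
      refine sum_eq_zero fun m hm => ?_
      rw [mem_Ico] at hm
      have := (h m hm.1 hm.2).2
      rw [if_neg]; omega
    rw [h1, add_zero]
    by_cases hc : 1 ≤ u - 1 ∧ u - 1 < n ∧ w (u - 1) = v
    · rw [if_pos]
      · rw [sum_eq_single (u - 1)]
        · rw [if_pos]; exact ⟨by omega, hc.2.2⟩
        · intro m _ hm; rw [if_neg]; omega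
        · intro hm; rw [mem_Ico] at hm; omega
      · rw [adj_iff h]
        exact ⟨u - 1, hc.1, hc.2.1, Or.inl ⟨by omega, hc.2.2⟩⟩
    · rw [if_neg]
      · symm
        refine sum_eq_zero fun m hm => ?_
        rw [mem_Ico] at hm
        rw [if_neg]
        rintro ⟨rfl, h2⟩
        exact hc ⟨by omega, by omega, by simpa using h2⟩
      · rw [adj_iff h]
        rintro ⟨m, h2, h3, h4⟩
        have := (h m h2 h3).2
        rcases h4 with ⟨rfl, rfl⟩ | ⟨rfl, rfl⟩
        · exact hc ⟨by omega, by omega, by simp⟩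
        · omega

/-- The degree, as a sum over the edges. -/
def dg (w : ℕ → ℕ) (n v : ℕ) : ℕ :=
  ∑ m ∈ Ico 1 n, ((if m + 1 = v then 1 else 0) + (if w m = v then 1 else 0))

theorem adj_mem {w : ℕ → ℕ} {n : ℕ} (h : Valid w n) {u v : ℕ} (ha : (tree w n).Adj u v) :
    u ∈ Icc 1 n ∧ v ∈ Icc 1 n := by
  rw [adj_iff h] at ha
  obtain ⟨m, h1, h2, h3⟩ := ha
  have := h m h1 h2
  rw [mem_Icc, mem_Icc]
  omega

theorem degree_eq {w : ℕ → ℕ} {n : ℕ} (h : Valid w n) (v : ℕ) : degree w n v = dg w n v := by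
  classical
  unfold degree dg
  have h1 : (tree w n).neighborSet v = ((Icc 1 n).filter (fun x => (tree w n).Adj v x) : Finset ℕ) := by
    ext x
    simp only [SimpleGraph.mem_neighborSet, coe_filter, Set.mem_ofPred_eq]
    exact ⟨fun hx => ⟨(adj_mem h hx).2, hx⟩, fun hx => hx.2⟩
  rw [h1, Set.ncard_coe_finset, card_filter]
  simp only [ind_adj h]
  rw [sum_comm]
  refine sum_congr rfl fun m hm => ?_
  rw [mem_Ico] at hm
  have h2 := h m hm.1 hm.2
  rw [sum_add_distrib]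
  congr 1
  · by_cases hc : m + 1 = v
    · rw [if_pos hc, sum_eq_single (w m)]
      · rw [if_pos ⟨hc, rfl⟩]
      · intro x _ hx; rw [if_neg]; exact fun h3 => hx h3.2.symm
      · intro hx; exfalso; apply hx; rw [mem_Icc]; omega
    · rw [if_neg hc]
      exact sum_eq_zero fun x _ => if_neg fun h3 => hc h3.1
  · by_cases hc : w m = v
    · rw [if_pos hc, sum_eq_single (m + 1)]
      · rw [if_pos ⟨rfl, hc⟩]
      · intro x _ hx; rw [if_neg]; exact fun h3 => hx h3.1.symm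
      · intro hx; exfalso; apply hx; rw [mem_Icc]; omega
    · rw [if_neg hc]
      exact sum_eq_zero fun x _ => if_neg fun h3 => hc h3.2

/-- Number of children. -/
def ch (w : ℕ → ℕ) (n v : ℕ) : ℕ := ∑ m ∈ Ico 1 n, (if w m = v then 1 else 0)

theorem dg_eq_ch {w : ℕ → ℕ} {n : ℕ} (v : ℕ) :
    dg w n v = (if 2 ≤ v ∧ v ≤ n then 1 else 0) + ch w n v := by
  unfold dg ch
  rw [sum_add_distrib]
  congr 1
  by_cases hc : 2 ≤ v ∧ v ≤ n
  · rw [if_pos hc, sum_eq_single (v - 1)]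
    · rw [if_pos]; omega
    · intro m _ hm; rw [if_neg]; omega
    · intro hm; rw [mem_Ico] at hm; omega
  · rw [if_neg hc]
    refine sum_eq_zero fun m hm => ?_
    rw [mem_Ico] at hm
    rw [if_neg]; omega

theorem ch_pos {w : ℕ → ℕ} {n m : ℕ} (h1 : 1 ≤ m) (h2 : m < n) : 1 ≤ ch w n (w m) := by
  unfold ch
  calc 1 = (if w m = w m then 1 else 0) := by simp
    _ ≤ _ := single_le_sum (f := fun m' => if w m' = w m then 1 else 0) (fun _ _ => Nat.zero_le _)
      (mem_Ico.2 ⟨h1, h2⟩)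

theorem dg_pos_parent {w : ℕ → ℕ} {n m : ℕ} (h1 : 1 ≤ m) (h2 : m < n) : 1 ≤ dg w n (w m) := by
  rw [dg_eq_ch]
  have := ch_pos (w := w) h1 h2
  omega

theorem dg_pos_child {w : ℕ → ℕ} {n m : ℕ} (h1 : 1 ≤ m) (h2 : m < n) : 1 ≤ dg w n (m + 1) := by
  rw [dg_eq_ch, if_pos (by omega)]
  omega

/-- Number of vertices of degree at least two. -/
def Xn (w : ℕ → ℕ) (n : ℕ) : ℕ := ∑ v ∈ Icc 1 n, (if 2 ≤ dg w n v then 1 else 0)

/-- Number of vertices of degree two. -/
def Yn (w : ℕ → ℕ) (n : ℕ) : ℕ := ∑ v ∈ Icc 1 n, (if dg w n v = 2 then 1 else 0)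

/-- Number of vertices whose parent is larger than `K`. -/
def Hn (K : ℕ) (w : ℕ → ℕ) (n : ℕ) : ℕ := ∑ m ∈ Ico 1 n, (if K < w m then 1 else 0)

/-- The sum over the edges which is `n` times the conditional expectation of `g (W n)`. -/
noncomputable def E (g : ℕ → ℝ) (w : ℕ → ℕ) (n : ℕ) : ℝ :=
  ∑ m ∈ Ico 1 n, (g (w m) / dg w n (m + 1) + g (m + 1) / dg w n (w m))

/-- Regrouping a sum over edges according to the parent. -/
theorem sum_parent {w : ℕ → ℕ} {n : ℕ} (h : Valid w n) (f : ℕ → ℝ) :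
    ∑ m ∈ Ico 1 n, f (w m) = ∑ v ∈ Icc 1 n, (ch w n v : ℝ) * f v := by
  have h1 : ∀ m ∈ Ico 1 n, f (w m) = ∑ v ∈ Icc 1 n, (if w m = v then f v else 0) := by
    intro m hm
    rw [mem_Ico] at hm
    have h2 := h m hm.1 hm.2
    rw [sum_ite_eq, if_pos (mem_Icc.2 (by omega))]
  rw [sum_congr rfl h1, sum_comm]
  refine sum_congr rfl fun v _ => ?_
  unfold ch
  push_cast
  rw [sum_mul]
  refine sum_congr rfl fun m _ => ?_
  split_ifs <;> simp

/-- Regrouping a sum over edges according to the child. -/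
theorem sum_child (n : ℕ) (f : ℕ → ℝ) :
    ∑ m ∈ Ico 1 n, f (m + 1) = ∑ v ∈ Icc 2 n, f v := by
  rw [← sum_image (f := f) (g := fun m => m + 1) (s := Ico 1 n)]
  · congr 1
    ext v
    simp only [mem_image, mem_Ico, mem_Icc]
    constructor
    · rintro ⟨m, hm, rfl⟩; omega
    · intro hv; exact ⟨v - 1, by omega, by omega⟩
  · intro a _ b _ hab
    simpa using hab

theorem split_one {n : ℕ} (hn : 1 ≤ n) (f : ℕ → ℝ) :
    ∑ v ∈ Icc 1 n, f v = f 1 + ∑ v ∈ Icc 2 n, f v := by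
  rw [← Finset.add_sum_Ioc_eq_sum_Icc hn]
  rfl

theorem dg_one {w : ℕ → ℕ} {n : ℕ} : dg w n 1 = ch w n 1 := by
  rw [dg_eq_ch, if_neg (by omega), zero_add]

theorem dg_two_le {w : ℕ → ℕ} {n v : ℕ} (hv : v ∈ Icc 2 n) : dg w n v = 1 + ch w n v := by
  rw [mem_Icc] at hv
  rw [dg_eq_ch, if_pos hv]

/-- `∑ 1 / deg (parent) ≤ 1 + X - Y / 2`. -/
theorem sum_inv_parent {w : ℕ → ℕ} {n : ℕ} (h : Valid w n) (hn : 1 ≤ n) :
    ∑ m ∈ Ico 1 n, 1 / (dg w n (w m) : ℝ) ≤ 1 + Xn w n - Yn w n / 2 := by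
  rw [sum_parent h (fun v => 1 / (dg w n v : ℝ)), split_one hn]
  have h1 : (ch w n 1 : ℝ) * (1 / (dg w n 1 : ℝ)) ≤ 1 := by
    rw [dg_one, mul_one_div]
    exact div_self_le_one _
  have h2 : ∑ v ∈ Icc 2 n, (ch w n v : ℝ) * (1 / (dg w n v : ℝ)) ≤
      ∑ v ∈ Icc 2 n, ((if 2 ≤ dg w n v then (1 : ℝ) else 0) - (if dg w n v = 2 then (1 : ℝ) else 0) / 2) := by
    refine sum_le_sum fun v hv => ?_
    have h3 := dg_two_le (w := w) hv
    generalize dg w n v = d at h3 ⊢
    generalize ch w n v = c at h3 ⊢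
    subst h3
    rcases Nat.lt_or_ge c 1 with hc | hc
    · have : c = 0 := by omega
      subst this; simp
    · rcases Nat.lt_or_ge c 2 with hc2 | hc2
      · have : c = 1 := by omega
        subst this; norm_num
      · rw [if_pos (by omega), if_neg (by omega)]
        have : (0 : ℝ) < ((1 + c : ℕ) : ℝ) := by positivity
        rw [mul_one_div, zero_div, sub_zero, div_le_one this]
        push_cast; linarith
  have h4 : ∑ v ∈ Icc 1 n, ((if 2 ≤ dg w n v then (1 : ℝ) else 0) - (if dg w n v = 2 then (1 : ℝ) else 0) / 2)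
      = Xn w n - Yn w n / 2 := by
    rw [sum_sub_distrib, ← sum_div]
    unfold Xn Yn
    push_cast
    rfl
  rw [split_one hn] at h4
  have h5 : 0 ≤ (if 2 ≤ dg w n 1 then (1 : ℝ) else 0) - (if dg w n 1 = 2 then (1 : ℝ) else 0) / 2 := by
    by_cases hc : dg w n 1 = 2
    · rw [if_pos hc.ge, if_pos hc]; norm_num
    · rw [if_neg hc]; split_ifs <;> norm_num
  linarith

theorem term_le {a b : ℝ} {d : ℕ} (ha : a ≤ b) (hb : 0 ≤ b) (hd : 1 ≤ d) : a / d ≤ b := by
  have : (1 : ℝ) ≤ d := by exact_mod_cast hd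
  rw [div_le_iff₀ (by linarith)]
  nlinarith

/-- (a) -/
theorem E_single {w : ℕ → ℕ} {n : ℕ} (i : ℕ) :
    E (fun x => if x = i then 1 else 0) w n ≤ dg w n i := by
  have h0 : (dg w n i : ℝ) = ∑ m ∈ Ico 1 n, ((if m + 1 = i then (1 : ℝ) else 0) +
      (if w m = i then (1 : ℝ) else 0)) := by
    unfold dg; push_cast; rfl
  rw [h0]
  unfold E
  refine sum_le_sum fun m hm => ?_
  rw [mem_Ico] at hm
  have h1 := dg_pos_child (w := w) hm.1 hm.2
  have h2 := dg_pos_parent (w := w) hm.1 hm.2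
  have h3 := term_le (a := if w m = i then (1 : ℝ) else 0) le_rfl (by split_ifs <;> norm_num) h1
  have h4 := term_le (a := if m + 1 = i then (1 : ℝ) else 0) le_rfl (by split_ifs <;> norm_num) h2
  linarith

/-- (b) -/
theorem E_leaf {w : ℕ → ℕ} {n : ℕ} (h : Valid w n) (hn : 1 ≤ n) :
    E (fun x => if dg w n x = 1 then 1 else 0) w n ≤ 2 + Xn w n - Yn w n / 2 := by
  have h1 := sum_inv_parent h hn
  have h2 : ∑ m ∈ Ico 1 n, (if dg w n (w m) = 1 then (1 : ℝ) else 0) ≤ 1 := by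
    rw [sum_parent h (fun v => if dg w n v = 1 then (1 : ℝ) else 0), split_one hn]
    have h3 : ∑ v ∈ Icc 2 n, (ch w n v : ℝ) * (if dg w n v = 1 then (1 : ℝ) else 0) = 0 := by
      refine sum_eq_zero fun v hv => ?_
      have h4 := dg_two_le (w := w) hv
      split_ifs with hc
      · have : ch w n v = 0 := by omega
        rw [this]; simp
      · simp
    rw [h3, add_zero, dg_one]
    split_ifs with hc
    · rw [hc]; simp
    · simp
  have h3 : E (fun x => if dg w n x = 1 then 1 else 0) w n ≤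
      ∑ m ∈ Ico 1 n, ((if dg w n (w m) = 1 then (1 : ℝ) else 0) + 1 / (dg w n (w m) : ℝ)) := by
    unfold E
    refine sum_le_sum fun m hm => ?_
    rw [mem_Ico] at hm
    have h1 := dg_pos_child (w := w) hm.1 hm.2
    have h3 := term_le (a := if dg w n (w m) = 1 then (1 : ℝ) else 0) le_rfl
      (by split_ifs <;> norm_num) h1
    refine add_le_add h3 ?_
    gcongr
    dsimp only
    split_ifs <;> norm_num
  rw [sum_add_distrib] at h3
  linarith

/-- (c) -/
theorem E_two {w : ℕ → ℕ} {n : ℕ} (h : Valid w n) (hn : 1 ≤ n) :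
    E (fun x => if dg w n x = 2 then 1 else 0) w n ≤ 2 + 3 / 2 * Yn w n := by
  have h2 : ∑ m ∈ Ico 1 n, (if dg w n (w m) = 2 then (1 : ℝ) else 0) ≤ Yn w n + 1 := by
    rw [sum_parent h (fun v => if dg w n v = 2 then (1 : ℝ) else 0), split_one hn]
    have h3 : ∑ v ∈ Icc 2 n, (ch w n v : ℝ) * (if dg w n v = 2 then (1 : ℝ) else 0) =
        ∑ v ∈ Icc 2 n, (if dg w n v = 2 then (1 : ℝ) else 0) := by
      refine sum_congr rfl fun v hv => ?_
      have h4 := dg_two_le (w := w) hv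
      split_ifs with hc
      · have : ch w n v = 1 := by omega
        rw [this]; simp
      · simp
    have h5 : (Yn w n : ℝ) = (if dg w n 1 = 2 then (1 : ℝ) else 0) +
        ∑ v ∈ Icc 2 n, (if dg w n v = 2 then (1 : ℝ) else 0) := by
      rw [← split_one hn (fun v => if dg w n v = 2 then (1 : ℝ) else 0)]
      unfold Yn; push_cast; rfl
    rw [h3, h5, dg_one]
    split_ifs with hc
    · rw [hc]; push_cast; linarith
    · linarith
  have h3 : ∑ m ∈ Ico 1 n, (if dg w n (m + 1) = 2 then (1 : ℝ) else 0) ≤ Yn w n := by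
    rw [sum_child n (fun v => if dg w n v = 2 then (1 : ℝ) else 0)]
    have h5 : (Yn w n : ℝ) = (if dg w n 1 = 2 then (1 : ℝ) else 0) +
        ∑ v ∈ Icc 2 n, (if dg w n v = 2 then (1 : ℝ) else 0) := by
      rw [← split_one hn (fun v => if dg w n v = 2 then (1 : ℝ) else 0)]
      unfold Yn; push_cast; rfl
    rw [h5]
    have : (0 : ℝ) ≤ if dg w n 1 = 2 then (1 : ℝ) else 0 := by split_ifs <;> norm_num
    linarith
  have h4 : ∑ m ∈ Ico 1 n, (if w m = 1 then (1 : ℝ) else 0) / (dg w n 1 : ℝ) ≤ 1 := by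
    rw [← sum_div, dg_one]
    have : ∑ m ∈ Ico 1 n, (if w m = 1 then (1 : ℝ) else 0) = (ch w n 1 : ℝ) := by
      unfold ch; push_cast; rfl
    rw [this]
    exact div_self_le_one _
  have h5 : E (fun x => if dg w n x = 2 then 1 else 0) w n ≤
      ∑ m ∈ Ico 1 n, ((if dg w n (w m) = 2 then (1 : ℝ) else 0) +
        ((if dg w n (m + 1) = 2 then (1 : ℝ) else 0) / 2 +
          (if w m = 1 then (1 : ℝ) else 0) / (dg w n 1 : ℝ))) := by
    unfold E
    refine sum_le_sum fun m hm => ?_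
    rw [mem_Ico] at hm
    have h1 := dg_pos_child (w := w) hm.1 hm.2
    have h3 := term_le (a := if dg w n (w m) = 2 then (1 : ℝ) else 0) le_rfl
      (by split_ifs <;> norm_num) h1
    refine add_le_add h3 ?_
    have hv := h m hm.1 hm.2
    have hind : (0 : ℝ) ≤ (if dg w n (m + 1) = 2 then (1 : ℝ) else 0) ∧
      (if dg w n (m + 1) = 2 then (1 : ℝ) else 0) ≤ 1 := by split_ifs <;> norm_num
    by_cases hw : w m = 1
    · rw [hw, if_pos rfl]
      have h6 : (0 : ℝ) ≤ (dg w n 1 : ℝ) := by positivity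
      have h7 : (if dg w n (m + 1) = 2 then (1 : ℝ) else 0) / (dg w n 1 : ℝ) ≤ 1 / (dg w n 1 : ℝ) := by
        gcongr; exact hind.2
      linarith [hind.1]
    · rw [if_neg hw, zero_div, add_zero]
      have h6 : 2 ≤ dg w n (w m) := by
        rw [dg_two_le (mem_Icc.2 ⟨by omega, by omega⟩)]
        have := ch_pos (w := w) hm.1 hm.2
        omega
      have h7 : (2 : ℝ) ≤ (dg w n (w m) : ℝ) := by exact_mod_cast h6
      rw [div_le_iff₀ (by linarith)]
      nlinarith [hind.1]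
  rw [sum_add_distrib, sum_add_distrib, ← sum_div] at h5
  linarith

/-- (d) -/
theorem E_late {w : ℕ → ℕ} {n : ℕ} (h : Valid w n) (hn : 1 ≤ n) (K : ℕ) :
    E (fun x => if K < x then 1 else 0) w n ≤ Hn K w n + Xn w n + 1 := by
  have h1 := sum_inv_parent h hn
  have h3 : E (fun x => if K < x then 1 else 0) w n ≤
      ∑ m ∈ Ico 1 n, ((if K < w m then (1 : ℝ) else 0) + 1 / (dg w n (w m) : ℝ)) := by
    unfold E
    refine sum_le_sum fun m hm => ?_
    rw [mem_Ico] at hm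
    have h1 := dg_pos_child (w := w) hm.1 hm.2
    have h3 := term_le (a := if K < w m then (1 : ℝ) else 0) le_rfl
      (by split_ifs <;> norm_num) h1
    refine add_le_add h3 ?_
    gcongr
    dsimp only
    split_ifs <;> norm_num
  have h2 : ∑ m ∈ Ico 1 n, (if K < w m then (1 : ℝ) else 0) = Hn K w n := by
    unfold Hn; push_cast; rfl
  rw [sum_add_distrib, h2] at h3
  have h4 : (0 : ℝ) ≤ (Yn w n : ℝ) := by positivity
  linarith

/-! ### One step -/

theorem dg_succ (w : ℕ → ℕ) {n : ℕ} (hn : 1 ≤ n) (v : ℕ) :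
    dg w (n + 1) v = dg w n v + ((if n + 1 = v then 1 else 0) + (if w n = v then 1 else 0)) := by
  unfold dg
  rw [sum_Ico_succ_top hn]

theorem dg_zero {w : ℕ → ℕ} {n : ℕ} (h : Valid w n) {v : ℕ} (hv : n < v) : dg w n v = 0 := by
  unfold dg
  refine sum_eq_zero fun m hm => ?_
  rw [mem_Ico] at hm
  have := h m hm.1 hm.2
  rw [if_neg (by omega), if_neg (by omega)]
  rfl

theorem dg_pos {w : ℕ → ℕ} {n : ℕ} (h : Valid w n) (hn : 2 ≤ n) {v : ℕ} (hv : v ∈ Icc 1 n) :
    1 ≤ dg w n v := by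
  rw [mem_Icc] at hv
  by_cases h2 : 2 ≤ v
  · rw [dg_two_le (mem_Icc.2 ⟨h2, hv.2⟩)]; omega
  · have h3 : v = 1 := by omega
    have h4 := h 1 le_rfl (by omega)
    have h5 : w 1 = 1 := by omega
    have h6 := ch_pos (w := w) (n := n) (m := 1) le_rfl (by omega)
    rw [h5] at h6
    rw [h3, dg_one]
    exact h6

theorem dg_new {w : ℕ → ℕ} {n : ℕ} (h : Valid w (n + 1)) (hn : 2 ≤ n) :
    dg w (n + 1) (n + 1) = 1 := by
  have hv : Valid w n := fun m h1 h2 => h m h1 (by omega)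
  have hwn := h n (by omega) (by omega)
  rw [dg_succ w (by omega), dg_zero hv (by omega), if_pos rfl, if_neg (by omega)]

theorem Xn_succ {w : ℕ → ℕ} {n : ℕ} (h : Valid w (n + 1)) (hn : 2 ≤ n) :
    Xn w (n + 1) = Xn w n + (if dg w n (w n) = 1 then 1 else 0) := by
  have hv : Valid w n := fun m h1 h2 => h m h1 (by omega)
  have hwn := h n (by omega) (by omega)
  unfold Xn
  rw [sum_Icc_succ_top (by omega), dg_new h hn, if_neg (by omega), add_zero]
  have h1 : ∀ v ∈ Icc 1 n, (if 2 ≤ dg w (n + 1) v then 1 else 0) =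
      (if 2 ≤ dg w n v then 1 else 0) + (if w n = v then (if dg w n v = 1 then 1 else 0) else 0) := by
    intro v hvv
    have h2 := dg_pos hv hn hvv
    rw [mem_Icc] at hvv
    rw [dg_succ w (by omega), if_neg (show ¬ n + 1 = v by omega), zero_add]
    generalize dg w n v = d at h2 ⊢
    by_cases hc : w n = v
    · rw [if_pos hc, if_pos hc]
      by_cases hd : d = 1
      · subst hd; simp
      · rw [if_pos (by omega), if_pos (by omega), if_neg hd]
    · rw [if_neg hc, if_neg hc]; simp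
  rw [sum_congr rfl h1, sum_add_distrib, sum_ite_eq, if_pos (mem_Icc.2 hwn)]

theorem Yn_succ {w : ℕ → ℕ} {n : ℕ} (h : Valid w (n + 1)) (hn : 2 ≤ n) :
    Yn w (n + 1) + (if dg w n (w n) = 2 then 1 else 0) =
      Yn w n + (if dg w n (w n) = 1 then 1 else 0) := by
  have hv : Valid w n := fun m h1 h2 => h m h1 (by omega)
  have hwn := h n (by omega) (by omega)
  unfold Yn
  rw [sum_Icc_succ_top (by omega), dg_new h hn, if_neg (by omega), add_zero]
  have h1 : ∀ v ∈ Icc 1 n, (if dg w (n + 1) v = 2 then 1 else 0) +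
      (if w n = v then (if dg w n v = 2 then 1 else 0) else 0) =
      (if dg w n v = 2 then 1 else 0) + (if w n = v then (if dg w n v = 1 then 1 else 0) else 0) := by
    intro v hvv
    have h2 := dg_pos hv hn hvv
    rw [mem_Icc] at hvv
    rw [dg_succ w (by omega), if_neg (show ¬ n + 1 = v by omega), zero_add]
    generalize dg w n v = d at h2 ⊢
    by_cases hc : w n = v
    · rw [if_pos hc, if_pos hc, if_pos hc]
      by_cases hd : d = 1
      · subst hd; simp
      · by_cases hd2 : d = 2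
        · subst hd2; simp
        · rw [if_neg (by omega), if_neg hd2, if_neg hd]
    · rw [if_neg hc, if_neg hc, if_neg hc]; simp
  have h2 := sum_congr rfl h1
  rw [sum_add_distrib, sum_add_distrib, sum_ite_eq, sum_ite_eq, if_pos (mem_Icc.2 hwn),
    if_pos (mem_Icc.2 hwn)] at h2
  exact h2

theorem Hn_succ (K : ℕ) (w : ℕ → ℕ) {n : ℕ} (hn : 1 ≤ n) :
    Hn K w (n + 1) = Hn K w n + (if K < w n then 1 else 0) := by
  unfold Hn
  rw [sum_Ico_succ_top hn]

theorem Yn_le_Xn (w : ℕ → ℕ) (n : ℕ) : Yn w n ≤ Xn w n := by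
  unfold Yn Xn
  refine sum_le_sum fun v _ => ?_
  split_ifs <;> omega

theorem Xn_le (w : ℕ → ℕ) (n : ℕ) : Xn w n ≤ n := by
  unfold Xn
  calc ∑ v ∈ Icc 1 n, (if 2 ≤ dg w n v then 1 else 0) ≤ ∑ v ∈ Icc 1 n, 1 := by
        refine sum_le_sum fun v _ => ?_
        split_ifs <;> omega
    _ = n := by simp

theorem Hn_le (K : ℕ) (w : ℕ → ℕ) (n : ℕ) : Hn K w n ≤ n := by
  unfold Hn
  calc ∑ m ∈ Ico 1 n, (if K < w m then 1 else 0) ≤ ∑ m ∈ Ico 1 n, 1 := by
        refine sum_le_sum fun v _ => ?_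
        split_ifs <;> omega
    _ ≤ n := by simp

theorem dg_le (w : ℕ → ℕ) (n i : ℕ) : dg w n i ≤ 2 * n := by
  unfold dg
  calc ∑ m ∈ Ico 1 n, ((if m + 1 = i then 1 else 0) + (if w m = i then 1 else 0))
      ≤ ∑ m ∈ Ico 1 n, 2 := by
        refine sum_le_sum fun v _ => ?_
        split_ifs <;> omega
    _ ≤ 2 * n := by simp; omega

theorem Hn_self {w : ℕ → ℕ} {K : ℕ} (h : Valid w K) : Hn K w K = 0 := by
  unfold Hn
  refine sum_eq_zero fun m hm => ?_
  rw [mem_Ico] at hm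
  have := h m hm.1 hm.2
  rw [if_neg (by omega)]

/-- The degrees of the first `K` vertices. -/
theorem sum_dg {w : ℕ → ℕ} {n K : ℕ} (h : Valid w n) (hKn : K ≤ n) :
    ∑ i ∈ Icc 1 K, dg w n i + Hn K w n = (K - 1) + (n - 1) := by
  unfold dg Hn
  rw [sum_comm, ← sum_add_distrib]
  have h1 : ∀ m ∈ Ico 1 n, (∑ i ∈ Icc 1 K, ((if m + 1 = i then 1 else 0) + (if w m = i then 1 else 0)))
      + (if K < w m then 1 else 0) = (if m < K then 1 else 0) + 1 := by
    intro m hm
    rw [mem_Ico] at hm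
    have := h m hm.1 hm.2
    rw [sum_add_distrib, sum_ite_eq, sum_ite_eq]
    simp only [mem_Icc]
    split_ifs <;> omega
  rw [sum_congr rfl h1, sum_add_distrib]
  have h2 : ∑ m ∈ Ico 1 n, (if m < K then 1 else 0) = K - 1 := by
    rw [← card_filter]
    have : (Ico 1 n).filter (fun m => m < K) = Ico 1 K := by
      ext m; simp only [mem_filter, mem_Ico]; omega
    rw [this, Nat.card_Ico]
  rw [h2]
  simp

end Q287.RF
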