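import Mathlib

set_option autoImplicit false

/-!
# The random friend tree: definitions
-/

open MeasureTheory
open scoped ENNReal

namespace Q287.RF

/-- The tree `T_n` on the vertices `1, …, n` in which, for `1 ≤ m < n`, vertex `m + 1` is joined
to vertex `w m`. -/
def tree (w : ℕ → ℕ) (n : ℕ) : SimpleGraph ℕ :=
  SimpleGraph.fromEdgeSet {e | ∃ m, 1 ≤ m ∧ m < n ∧ e = s(m + 1, w m)}

/-- The degree of `v` in `T_n`. -/
noncomputable def degree (w : ℕ → ℕ) (n v : ℕ) : ℕ := ((tree w n).neighborSet v).ncard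

open Classical in
/-- `V n` and `W n` (`n ≥ 2`) are the choices of the random friend tree: `W 1 = 1`, so that `T_2`
is the edge `{1, 2}`, and for `n ≥ 2`, given `T_n` (that is, given `W 1, …, W (n - 1)`), `V n` is
uniform on `{1, …, n}`, `W n` is uniform among the neighbours of `V n` in `T_n`, and `T_{n+1}` is
`T_n` with vertex `n + 1` joined to `W n`. -/
structure IsRandomFriendTree {Ω : Type*} [MeasurableSpace Ω] (P : Measure Ω)
    (V W : ℕ → Ω → ℕ) : Prop where
  isProbabilityMeasure : IsProbabilityMeasure P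
  measurable_V : ∀ n, Measurable (V n)
  measurable_W : ∀ n, Measurable (W n)
  init : ∀ᵐ ω ∂P, W 1 ω = 1
  step : ∀ n, 2 ≤ n → ∀ (w : ℕ → ℕ) (v x : ℕ),
    P {ω | (∀ m, 1 ≤ m → m < n → W m ω = w m) ∧ V n ω = v ∧ W n ω = x} =
      P {ω | ∀ m, 1 ≤ m → m < n → W m ω = w m} *
        (if v ∈ Finset.Icc 1 n ∧ (tree w n).Adj v x
          then (n : ℝ≥0∞)⁻¹ * (degree w n v : ℝ≥0∞)⁻¹ else 0)

end Q287.RF
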