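import Pool.Agent.Q287.RF.Tail

set_option autoImplicit false

/-!
# The random friend tree: the total hub mass is one
-/

open Finset MeasureTheory Filter Topology
open scoped ENNReal

namespace Q287.RF

variable {Ω : Type*} [mΩ : MeasurableSpace Ω] {P : Measure Ω} {V W : ℕ → Ω → ℕ}

/-- The limit mass of the late vertices. -/
noncomputable def RK (W : ℕ → Ω → ℕ) (K : ℕ) (ω : Ω) : ℝ≥0∞ :=
  liminf (fun n : ℕ => ENNReal.ofReal ((Hn K (fun m => W m ω) n : ℝ) / n)) atTop

theorem measurable_HR (hT : IsRandomFriendTree P V W) (K n : ℕ) :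
    Measurable (fun ω => ENNReal.ofReal ((Hn K (fun m => W m ω) n : ℝ) / n)) :=
  (((dep_Hn K n).measurable hT.measurable_W).div_const _).ennreal_ofReal

theorem measurable_RK (hT : IsRandomFriendTree P V W) (K : ℕ) : Measurable (RK W K) :=
  Measurable.liminf fun n => measurable_HR hT K n

theorem lintegral_RK_le (hT : IsRandomFriendTree P V W) {K : ℕ} (hK : 2 ≤ K) :
    ∫⁻ ω, RK W K ω ∂P ≤ ENNReal.ofReal (36 / 5 * ue P W K) := by
  have h1 : ∫⁻ ω, RK W K ω ∂P ≤
      liminf (fun n : ℕ => ∫⁻ ω, ENNReal.ofReal ((Hn K (fun m => W m ω) n : ℝ) / n) ∂P) atTop :=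
    lintegral_liminf_le fun n => measurable_HR hT K n
  refine h1.trans ?_
  refine liminf_le_of_le (by isBoundedDefault) fun b hb => ?_
  obtain ⟨n, hn1, hn2⟩ := (hb.and (eventually_ge_atTop K)).exists
  refine hn1.trans ?_
  have hn0 : (0 : ℝ) < n := by
    have : 0 < n := by omega
    exact_mod_cast this
  rw [← ofReal_integral_eq_lintegral_ofReal ((intH hT K n).div_const _)
    (Filter.Eventually.of_forall fun ω => by positivity), integral_div]
  refine ENNReal.ofReal_le_ofReal ?_
  have h2 := he_le hT hK hn2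
  have h3 := ue_pos hT (n := n) (by omega)
  unfold he at h2
  linarith

/-- Almost surely the mass of the late vertices tends to zero. -/
theorem ae_iInf_RK (hT : IsRandomFriendTree P V W) : ∀ᵐ ω ∂P, ⨅ K, RK W K ω = 0 := by
  have hm : Measurable (fun ω => ⨅ K, RK W K ω) := Measurable.iInf fun K => measurable_RK hT K
  have h1 : ∫⁻ ω, ⨅ K, RK W K ω ∂P = 0 := by
    have h2 : ∀ K, 2 ≤ K → ∫⁻ ω, ⨅ K, RK W K ω ∂P ≤ ENNReal.ofReal (36 / 5 * ue P W K) := by
      intro K hK
      refine le_trans ?_ (lintegral_RK_le hT hK)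
      exact lintegral_mono fun ω => iInf_le _ K
    have h3 : Tendsto (fun K => ENNReal.ofReal (36 / 5 * ue P W K)) atTop (𝓝 0) := by
      have := (ENNReal.tendsto_ofReal ((ue_tendsto hT).const_mul (36 / 5)))
      simpa using this
    refine le_antisymm ?_ bot_le
    exact ge_of_tendsto h3 ((eventually_ge_atTop 2).mono h2)
  rw [lintegral_eq_zero_iff hm] at h1
  exact h1

/-- The asymptotic degree fraction of `v`: `Z_v = liminf D_n(v) / n`. -/
noncomputable def Z (w : ℕ → ℕ) (v : ℕ) : ℝ := liminf (fun n : ℕ => (degree w n v : ℝ) / n) atTop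

theorem hasSum_Z (hT : IsRandomFriendTree P V W) :
    ∀ᵐ ω ∂P, (∀ v, Tendsto (fun n : ℕ => (degree (fun m => W m ω) n v : ℝ) / n) atTop
      (𝓝 (Z (fun m => W m ω) v))) ∧ HasSum (fun i : ℕ => Z (fun m => W m ω) (i + 1)) 1 := by
  have hconv := ae_all_iff.2 fun i => degree_converges hT i
  filter_upwards [hconv, ae_valid hT, ae_iInf_RK hT] with ω hω hv hR
  set w : ℕ → ℕ := fun m => W m ω with hw
  have hdeg : ∀ n v, degree w n v = dg w n v := fun n v => degree_eq (hv n) v
  have hlim : ∀ v, Tendsto (fun n : ℕ => (degree w n v : ℝ) / n) atTop (𝓝 (Z w v)) := by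
    intro v
    obtain ⟨z, hz⟩ := hω v
    have h1 : Tendsto (fun n : ℕ => (degree w n v : ℝ) / n) atTop (𝓝 z) := by
      simp only [hdeg]; exact hz
    have h2 : Z w v = z := h1.liminf_eq
    rw [h2]; exact h1
  refine ⟨hlim, ?_⟩
  have hZ0 : ∀ v, 0 ≤ Z w v := fun v =>
    ge_of_tendsto (hlim v) (Filter.Eventually.of_forall fun n => by positivity)
  -- partial sums
  have hH : ∀ K : ℕ, 1 ≤ K → Tendsto (fun n : ℕ => (Hn K w n : ℝ) / n) atTop
      (𝓝 (1 - ∑ i ∈ Icc 1 K, Z w i)) := by
    intro K hK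
    have h1 : Tendsto (fun n : ℕ => ∑ i ∈ Icc 1 K, (degree w n i : ℝ) / n) atTop
        (𝓝 (∑ i ∈ Icc 1 K, Z w i)) := tendsto_finsetSum _ fun i _ => hlim i
    have h2 : Tendsto (fun n : ℕ => ((K : ℝ) - 2) / n) atTop (𝓝 0) :=
      tendsto_const_div_atTop_nhds_zero_nat _
    have h3 := (tendsto_const_nhds (x := (1 : ℝ)) (f := atTop)).add h2 |>.sub h1
    rw [add_zero] at h3
    refine h3.congr' ?_
    filter_upwards [eventually_ge_atTop K] with n hn
    have hn1 : 1 ≤ n := by omega
    have hn0 : (0 : ℝ) < n := by exact_mod_cast hn1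
    have h4 := sum_dg (hv n) hn
    have h5 : (∑ i ∈ Icc 1 K, (dg w n i : ℝ)) + Hn K w n = (K - 1) + (n - 1) := by
      have := congrArg (fun k : ℕ => (k : ℝ)) h4
      push_cast [Nat.cast_sub hK, Nat.cast_sub hn1] at this
      exact this
    simp only [hdeg]
    rw [← sum_div]
    field_simp
    linarith
  have hS : ∀ K : ℕ, ∑ i ∈ range K, Z w (i + 1) = ∑ i ∈ Icc 1 K, Z w i := by
    intro K
    rw [range_eq_Ico, sum_Ico_add' (fun i => Z w i) 0 K 1]
    rfl
  have hle : ∀ K : ℕ, 1 ≤ K → ∑ i ∈ Icc 1 K, Z w i ≤ 1 := by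
    intro K hK
    have h1 := ge_of_tendsto (hH K hK) (Filter.Eventually.of_forall fun n => by positivity)
    linarith
  have hRK : ∀ K : ℕ, 1 ≤ K → RK W K ω = ENNReal.ofReal (1 - ∑ i ∈ Icc 1 K, Z w i) := by
    intro K hK
    exact (ENNReal.tendsto_ofReal (hH K hK)).liminf_eq
  have hmono : Monotone (fun K : ℕ => ∑ i ∈ range K, Z w (i + 1)) := by
    refine monotone_nat_of_le_succ fun K => ?_
    rw [sum_range_succ]
    linarith [hZ0 (K + 1)]
  rw [hasSum_iff_tendsto_nat_of_nonneg (fun i => hZ0 (i + 1))]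
  rw [Metric.tendsto_atTop]
  intro ε hε
  have h6 : ∃ K, 1 ≤ K ∧ 1 - ε < ∑ i ∈ Icc 1 K, Z w i := by
    by_contra hcon
    push Not at hcon
    have h7 : ENNReal.ofReal (min ε 1) ≤ ⨅ K, RK W K ω := by
      refine le_iInf fun K => ?_
      rcases Nat.lt_or_ge K 1 with hK | hK
      · -- `K = 0`
        have h8 : RK W 1 ω ≤ RK W K ω := by
          refine liminf_le_liminf (Filter.Eventually.of_forall fun n => ?_)
          refine ENNReal.ofReal_le_ofReal (div_le_div_of_nonneg_right ?_ (by positivity))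
          have : Hn 1 w n ≤ Hn K w n := by
            unfold Hn
            refine sum_le_sum fun m _ => ?_
            split_ifs <;> omega
          exact_mod_cast this
        refine le_trans ?_ h8
        rw [hRK 1 le_rfl]
        refine ENNReal.ofReal_le_ofReal ((min_le_left _ _).trans ?_)
        linarith [hcon 1 le_rfl]
      · rw [hRK K hK]
        refine ENNReal.ofReal_le_ofReal ((min_le_left _ _).trans ?_)
        linarith [hcon K hK]
    rw [hR] at h7
    have h9 : 0 < ENNReal.ofReal (min ε 1) := ENNReal.ofReal_pos.2 (lt_min hε one_pos)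
    exact absurd h7 (not_le.2 h9)
  obtain ⟨K, hK, hK2⟩ := h6
  refine ⟨K, fun n hn => ?_⟩
  have h10 := hmono hn
  have h11 := hle n (by omega)
  rw [← hS] at h11 hK2
  rw [Real.dist_eq, abs_lt]
  constructor <;> linarith

end Q287.RF
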