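import Pool.Agent.Q287.RF.Real

set_option autoImplicit false

/-!
# The random friend tree: the degrees divided by `n` converge
-/

open Finset MeasureTheory Filter Topology
open scoped ENNReal

namespace Q287.RF

variable {Ω : Type*} [mΩ : MeasurableSpace Ω] {P : Measure Ω} {V W : ℕ → Ω → ℕ}

/-! ### Convergence of the degrees -/

/-- The filtration generated by the history, started at time `N`. -/
def filt (hW : ∀ n, Measurable (W n)) (N : ℕ) : Filtration ℕ mΩ where
  seq k := MeasurableSpace.comap (hist W (k + N)) ⊤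
  mono' := by
    intro i j hij s hs
    obtain ⟨B, _, rfl⟩ := hs
    have hle : i + N ≤ j + N := by omega
    refine ⟨{a | (fun k : Fin (i + N) => a (Fin.castLE hle k)) ∈ B}, trivial, ?_⟩
    ext ω
    rfl
  le' := by
    intro k s hs
    obtain ⟨B, _, rfl⟩ := hs
    exact measurable_hist hW _ (Set.to_countable B).measurableSet

theorem depD (n i : ℕ) : Dep n (fun w => (dg w n i : ℝ)) := fun w w' h => by
  show (dg w n i : ℝ) = dg w' n i
  rw [dg_congr h]

theorem intD (hT : IsRandomFriendTree P V W) (n i : ℕ) :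
    Integrable (fun ω => (dg (fun m => W m ω) n i : ℝ)) P := by
  have hP := hT.isProbabilityMeasure
  refine integrable_of_bdd ((depD n i).measurable hT.measurable_W) (2 * n) fun ω => ?_
  rw [abs_of_nonneg (by positivity)]
  exact_mod_cast dg_le _ _ _

theorem deg_step (hT : IsRandomFriendTree P V W) {n i : ℕ} (hn2 : 2 ≤ n) (hin : i < n)
    (B : Set (Fin n → ℕ)) :
    ∫ ω in (hist W n) ⁻¹' B, -((dg (fun m => W m ω) n i : ℝ) / (n : ℝ)) ∂P ≤
      ∫ ω in (hist W n) ⁻¹' B, -((dg (fun m => W m ω) (n + 1) i : ℝ) / ((n : ℝ) + 1)) ∂P := by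
  have hP := hT.isProbabilityMeasure
  have hn0 : (0 : ℝ) < n := by positivity
  have hintD := fun n => intD hT n i
  have hstep := real_step hT hn2 (fun _ x => if x = i then 1 else 0) (fun _ _ _ => rfl)
    (fun _ x => by split_ifs <;> norm_num) B
  have hle : ∫ ω in (hist W n) ⁻¹' B, E (fun x => if x = i then (1 : ℝ) else 0)
      (fun m => W m ω) n / n ∂P ≤ ∫ ω in (hist W n) ⁻¹' B, (dg (fun m => W m ω) n i : ℝ) / n ∂P := by
    refine integral_mono_of_nonneg (Filter.Eventually.of_forall fun ω => ?_)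
      ((hintD n).div_const _).integrableOn (Filter.Eventually.of_forall fun ω => ?_)
    · exact div_nonneg (E_nonneg (fun x => by split_ifs <;> norm_num) _ _) hn0.le
    · exact div_le_div_of_nonneg_right (E_single i) hn0.le
  have hintI : Integrable (fun ω => if W n ω = i then (1 : ℝ) else 0) P := by
    refine integrable_of_bdd ?_ 1 fun ω => ?_
    · exact (measurable_of_countable (fun x : ℕ => if x = i then (1 : ℝ) else 0)).comp
        (hT.measurable_W n)
    · split_ifs <;> norm_num
  have hsucc : ∀ ω, (dg (fun m => W m ω) (n + 1) i : ℝ) =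
      (dg (fun m => W m ω) n i : ℝ) + (if W n ω = i then (1 : ℝ) else 0) := by
    intro ω
    rw [dg_succ _ (by omega), if_neg (show ¬ n + 1 = i by omega)]
    push_cast
    ring
  have e1 : ∫ ω in (hist W n) ⁻¹' B, -((dg (fun m => W m ω) (n + 1) i : ℝ) / ((n : ℝ) + 1)) ∂P =
      -((∫ ω in (hist W n) ⁻¹' B, (dg (fun m => W m ω) n i : ℝ) ∂P +
        ∫ ω in (hist W n) ⁻¹' B, (if W n ω = i then (1 : ℝ) else 0) ∂P) / (n + 1)) := by
    simp only [hsucc]
    rw [integral_neg, integral_div, integral_add (hintD n).integrableOn hintI.integrableOn]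
  have e2 : ∫ ω in (hist W n) ⁻¹' B, -((dg (fun m => W m ω) n i : ℝ) / (n : ℝ)) ∂P =
      -((∫ ω in (hist W n) ⁻¹' B, (dg (fun m => W m ω) n i : ℝ) ∂P) / n) := by
    rw [integral_neg, integral_div]
  rw [← hstep, integral_div] at hle
  rw [e1, e2]
  set D := ∫ ω in (hist W n) ⁻¹' B, (dg (fun m => W m ω) n i : ℝ) ∂P
  set I := ∫ ω in (hist W n) ⁻¹' B, (if W n ω = i then (1 : ℝ) else 0) ∂P
  have h3 : (D + I) / (n + 1) ≤ D / n := by
    rw [div_le_div_iff₀ (by linarith) hn0]
    have h4 : I * n ≤ D := by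
      rwa [le_div_iff₀ hn0] at hle
    nlinarith
  linarith

theorem degree_converges (hT : IsRandomFriendTree P V W) (i : ℕ) :
    ∀ᵐ ω ∂P, ∃ z : ℝ, Tendsto (fun n : ℕ => (dg (fun m => W m ω) n i : ℝ) / n) atTop (𝓝 z) := by
  have hP := hT.isProbabilityMeasure
  obtain ⟨N, hN⟩ : ∃ N, N = i + 2 := ⟨_, rfl⟩
  let f : ℕ → Ω → ℝ := fun k ω => -((dg (fun m => W m ω) (k + N) i : ℝ) / ((k + N : ℕ) : ℝ))
  have hfint : ∀ k, Integrable (f k) P := fun k => ((intD hT (k + N) i).div_const _).neg
  have hsub : Submartingale f (filt hT.measurable_W N) P := by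
    refine submartingale_of_setIntegral_le_succ ?_ hfint ?_
    · intro k
      have h1 : f k = (fun a : Fin (k + N) → ℕ => -((dg (sq a) (k + N) i : ℝ) / ((k + N : ℕ) : ℝ))) ∘
          hist W (k + N) := by
        funext ω
        show -((dg (fun m => W m ω) (k + N) i : ℝ) / ((k + N : ℕ) : ℝ)) = _
        rw [(depD (k + N) i).eq W]
        rfl
      rw [h1]
      refine Measurable.stronglyMeasurable ?_
      refine (measurable_of_countable _).comp ?_
      have h2 : @Measurable Ω (Fin (k + N) → ℕ) (MeasurableSpace.comap (hist W (k + N)) ⊤) ⊤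
          (hist W (k + N)) := comap_measurable _
      exact h2.mono le_rfl le_top
    · rintro k s ⟨B, _, rfl⟩
      have h1 := deg_step hT (n := k + N) (i := i) (by omega) (by omega) B
      have h2 : ∀ ω, f (k + 1) ω = -((dg (fun m => W m ω) (k + N + 1) i : ℝ) / (((k + N : ℕ) : ℝ) + 1)) := by
        intro ω
        show -((dg (fun m => W m ω) (k + 1 + N) i : ℝ) / ((k + 1 + N : ℕ) : ℝ)) = _
        rw [show k + 1 + N = k + N + 1 by omega]
        push_cast
        rfl
      simp only [h2]
      exact h1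
  obtain hconv := hsub.exists_ae_tendsto_of_bdd (R := 2) (by
    intro k
    refine (eLpNorm_le_of_ae_bound (C := 2) (Filter.Eventually.of_forall fun ω => ?_)).trans ?_
    · show ‖-((dg (fun m => W m ω) (k + N) i : ℝ) / ((k + N : ℕ) : ℝ))‖ ≤ 2
      rw [norm_neg, Real.norm_eq_abs, abs_of_nonneg (by positivity), div_le_iff₀ (by
        have : 0 < k + N := by omega
        exact_mod_cast this)]
      exact_mod_cast dg_le _ _ _
    · simp)
  filter_upwards [hconv] with ω hω
  obtain ⟨c, hc⟩ := hω
  refine ⟨-c, ?_⟩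
  have h1 := hc.neg
  simp only [f, neg_neg] at h1
  exact (tendsto_add_atTop_iff_nat N).1 h1

end Q287.RF
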