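import Pool.Agent.Q287.RF.Comb

set_option autoImplicit false

/-!
# The random friend tree: one-step conditional laws
-/

open Finset MeasureTheory
open scoped ENNReal

namespace Q287.RF

variable {Ω : Type*} [MeasurableSpace Ω] {P : Measure Ω} {V W : ℕ → Ω → ℕ}

/-- The choices `W 1, …, W (n - 1)`. -/
def hist (W : ℕ → Ω → ℕ) (n : ℕ) (ω : Ω) : Fin n → ℕ := fun i => if (i : ℕ) = 0 then 0 else W i ω

/-- Extension of a finite sequence by zero. -/
def sq {n : ℕ} (a : Fin n → ℕ) : ℕ → ℕ := fun m => if h : m < n then a ⟨m, h⟩ else 0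

omit [MeasurableSpace Ω] in
theorem sq_hist (W : ℕ → Ω → ℕ) (n : ℕ) (ω : Ω) {m : ℕ} (h1 : 1 ≤ m) (h2 : m < n) :
    sq (hist W n ω) m = W m ω := by
  unfold sq hist
  rw [dif_pos h2, if_neg (by simp; omega)]

theorem measurable_hist (hW : ∀ n, Measurable (W n)) (n : ℕ) : Measurable (hist W n) := by
  rw [measurable_pi_iff]
  intro i
  unfold hist
  split_ifs
  · exact measurable_const
  · exact hW i

theorem valid_congr {w w' : ℕ → ℕ} {n : ℕ} (h : ∀ m, 1 ≤ m → m < n → w m = w' m)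
    (hv : Valid w n) : Valid w' n := by
  intro m h1 h2
  rw [← h m h1 h2]
  exact hv m h1 h2

theorem dg_congr {w w' : ℕ → ℕ} {n : ℕ} (h : ∀ m, 1 ≤ m → m < n → w m = w' m) (v : ℕ) :
    dg w n v = dg w' n v := by
  unfold dg
  refine sum_congr rfl fun m hm => ?_
  rw [mem_Ico] at hm
  rw [h m hm.1 hm.2]

omit [MeasurableSpace Ω] in
theorem valid_sq_iff (W : ℕ → Ω → ℕ) (n : ℕ) (ω : Ω) :
    Valid (sq (hist W n ω)) n ↔ Valid (fun m => W m ω) n :=
  ⟨fun h => valid_congr (fun _ h1 h2 => sq_hist W n ω h1 h2) h,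
    fun h => valid_congr (fun _ h1 h2 => (sq_hist W n ω h1 h2).symm) h⟩

omit [MeasurableSpace Ω] in
theorem hist_eq_iff {n : ℕ} {a : Fin n → ℕ} (ha : ∀ i : Fin n, (i : ℕ) = 0 → a i = 0) (ω : Ω) :
    hist W n ω = a ↔ ∀ m, 1 ≤ m → m < n → W m ω = sq a m := by
  constructor
  · rintro rfl m h1 h2
    exact (sq_hist W n ω h1 h2).symm
  · intro h
    funext i
    unfold hist
    split_ifs with hi
    · exact (ha i hi).symm
    · rw [h i (by omega) i.2, sq, dif_pos i.2]

theorem valid_succ {w : ℕ → ℕ} {n : ℕ} (h : Valid w n) (hn : 1 ≤ w n ∧ w n ≤ n) :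
    Valid w (n + 1) := by
  intro m h1 h2
  rcases Nat.lt_or_ge m n with h3 | h3
  · exact h m h1 h3
  · have : m = n := by omega
    subst this; exact hn

theorem ae_valid (hT : IsRandomFriendTree P V W) : ∀ᵐ ω ∂P, ∀ n, Valid (fun m => W m ω) n := by
  rw [ae_all_iff]
  intro n
  induction n with
  | zero => exact Filter.Eventually.of_forall fun ω m h1 h2 => by omega
  | succ n ih =>
    rcases Nat.lt_or_ge n 2 with h2 | h2
    · rcases Nat.lt_or_ge n 1 with h1 | h1
      · exact Filter.Eventually.of_forall fun ω m h1 h2 => by omega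
      · have : n = 1 := by omega
        subst this
        filter_upwards [ih, hT.init] with ω h3 h4
        exact valid_succ h3 (by simp [h4])
    · have key : ∀ᵐ ω ∂P, Valid (fun m => W m ω) n → (1 ≤ W n ω ∧ W n ω ≤ n) := by
        rw [ae_iff]
        have hsub : {ω | ¬ (Valid (fun m => W m ω) n → (1 ≤ W n ω ∧ W n ω ≤ n))} ⊆
            ⋃ a : Fin n → ℕ, ⋃ v : ℕ, ⋃ x : ℕ, {ω | Valid (sq a) n ∧ ¬ (1 ≤ x ∧ x ≤ n) ∧
              ((∀ m, 1 ≤ m → m < n → W m ω = sq a m) ∧ V n ω = v ∧ W n ω = x)} := by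
          intro ω hω
          have hω' : ¬ (Valid (fun m => W m ω) n → (1 ≤ W n ω ∧ W n ω ≤ n)) := hω
          push Not at hω'
          simp only [Set.mem_iUnion]
          refine ⟨hist W n ω, V n ω, W n ω, (valid_sq_iff W n ω).2 hω'.1, ?_, ?_, rfl, rfl⟩
          · intro h5; exact absurd h5.2 (not_le.2 (hω'.2 h5.1))
          · intro m h5 h6; exact (sq_hist W n ω h5 h6).symm
        refine measure_mono_null hsub ?_
        rw [measure_iUnion_null_iff]
        intro a
        rw [measure_iUnion_null_iff]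
        intro v
        rw [measure_iUnion_null_iff]
        intro x
        by_cases hc : Valid (sq a) n ∧ ¬ (1 ≤ x ∧ x ≤ n)
        · refine measure_mono_null (t := {ω | (∀ m, 1 ≤ m → m < n → W m ω = sq a m) ∧ V n ω = v ∧
            W n ω = x}) (fun ω hω => hω.2.2) ?_
          rw [hT.step n h2 (sq a) v x, if_neg, mul_zero]
          rintro ⟨_, h6⟩
          have := (adj_mem hc.1 h6).2
          rw [mem_Icc] at this
          exact hc.2 this
        · refine measure_mono_null (t := ∅) ?_ measure_empty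
          rintro ω ⟨h5, h6, _⟩
          exact absurd ⟨h5, h6⟩ hc
      filter_upwards [ih, key] with ω h3 h4
      exact valid_succ h3 (h4 h3)

/-- The conditional expectation of `G (W n)` given the history. -/
noncomputable def EE (G : ℕ → ℝ≥0∞) (w : ℕ → ℕ) (n : ℕ) : ℝ≥0∞ :=
  ∑ m ∈ Ico 1 n, (G (w m) * (dg w n (m + 1) : ℝ≥0∞)⁻¹ + G (m + 1) * (dg w n (w m) : ℝ≥0∞)⁻¹)

theorem sum_kernel {w : ℕ → ℕ} {n : ℕ} (h : Valid w n) (G : ℕ → ℝ≥0∞) (c : ℝ≥0∞) :
    ∑' x : ℕ, G x * ∑' v : ℕ, (open Classical in if v ∈ Icc 1 n ∧ (tree w n).Adj v x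
      then c * (degree w n v : ℝ≥0∞)⁻¹ else 0) = c * EE G w n := by
  classical
  have h1 : ∀ x : ℕ, (∑' v : ℕ, (if v ∈ Icc 1 n ∧ (tree w n).Adj v x
      then c * (degree w n v : ℝ≥0∞)⁻¹ else 0)) =
      ∑ v ∈ Icc 1 n, (if (tree w n).Adj v x then (1 : ℝ≥0∞) else 0) * (c * (dg w n v : ℝ≥0∞)⁻¹) := by
    intro x
    rw [tsum_eq_sum (s := Icc 1 n)]
    · refine sum_congr rfl fun v hv => ?_
      rw [degree_eq h]
      by_cases hc : (tree w n).Adj v x
      · rw [if_pos ⟨hv, hc⟩, if_pos hc, one_mul]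
      · rw [if_neg (fun h => hc h.2), if_neg hc, zero_mul]
    · intro v hv
      rw [if_neg (fun h => hv h.1)]
  simp only [h1]
  rw [tsum_eq_sum (s := Icc 1 n)]
  · have h2 : ∀ v x : ℕ, (if (tree w n).Adj v x then (1 : ℝ≥0∞) else 0) =
        ∑ m ∈ Ico 1 n, ((if m + 1 = v ∧ w m = x then 1 else 0) +
        (if m + 1 = x ∧ w m = v then 1 else 0)) := by
      intro v x
      have := congrArg (fun k : ℕ => (k : ℝ≥0∞)) (ind_adj h v x)
      push_cast at this
      exact this
    simp only [h2, sum_mul, mul_sum]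
    -- reorder the sums
    have h3 : ∀ x ∈ Icc 1 n, ∑ v ∈ Icc 1 n, ∑ m ∈ Ico 1 n, G x * (((if m + 1 = v ∧ w m = x then 1 else 0) +
        (if m + 1 = x ∧ w m = v then 1 else 0)) * (c * (dg w n v : ℝ≥0∞)⁻¹)) =
        ∑ m ∈ Ico 1 n, ∑ v ∈ Icc 1 n, G x * (((if m + 1 = v ∧ w m = x then 1 else 0) +
        (if m + 1 = x ∧ w m = v then 1 else 0)) * (c * (dg w n v : ℝ≥0∞)⁻¹)) :=
      fun x _ => sum_comm
    rw [sum_congr rfl h3, sum_comm]
    unfold EE
    rw [mul_sum]
    refine sum_congr rfl fun m hm => ?_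
    rw [mem_Ico] at hm
    have hvm := h m hm.1 hm.2
    have h4 : ∀ x v : ℕ, G x * (((if m + 1 = v ∧ w m = x then 1 else 0) +
        (if m + 1 = x ∧ w m = v then 1 else 0)) * (c * (dg w n v : ℝ≥0∞)⁻¹)) =
        (if w m = x then (if m + 1 = v then G x * (c * (dg w n v : ℝ≥0∞)⁻¹) else 0) else 0) +
        (if m + 1 = x then (if w m = v then G x * (c * (dg w n v : ℝ≥0∞)⁻¹) else 0) else 0) := by
      intro x v
      have e1 : (if m + 1 = v ∧ w m = x then (1 : ℝ≥0∞) else 0) =
          if w m = x then (if m + 1 = v then 1 else 0) else 0 := by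
        by_cases ha : w m = x
        · simp only [ha, and_true, if_true]
        · simp only [ha, and_false, if_false]
      have e2 : (if m + 1 = x ∧ w m = v then (1 : ℝ≥0∞) else 0) =
          if m + 1 = x then (if w m = v then 1 else 0) else 0 := by
        by_cases ha : m + 1 = x
        · simp only [ha, true_and, if_true]
        · simp only [ha, false_and, if_false]
      rw [e1, e2, add_mul, mul_add]
      congr 1
      · split_ifs <;> simp
      · split_ifs <;> simp
    simp only [h4, sum_add_distrib]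
    have h5 : ∑ x ∈ Icc 1 n, ∑ v ∈ Icc 1 n, (if w m = x then
        (if m + 1 = v then G x * (c * (dg w n v : ℝ≥0∞)⁻¹) else 0) else 0) =
        G (w m) * (c * (dg w n (m + 1) : ℝ≥0∞)⁻¹) := by
      rw [sum_eq_single (w m)]
      · simp only [if_true]
        rw [sum_ite_eq, if_pos (mem_Icc.2 ⟨by omega, by omega⟩)]
      · intro x _ hx
        simp [hx.symm]
      · intro hx; exfalso; apply hx; rw [mem_Icc]; omega
    have h6 : ∑ x ∈ Icc 1 n, ∑ v ∈ Icc 1 n, (if m + 1 = x then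
        (if w m = v then G x * (c * (dg w n v : ℝ≥0∞)⁻¹) else 0) else 0) =
        G (m + 1) * (c * (dg w n (w m) : ℝ≥0∞)⁻¹) := by
      rw [sum_eq_single (m + 1)]
      · simp only [if_true]
        rw [sum_ite_eq, if_pos (mem_Icc.2 ⟨by omega, by omega⟩)]
      · intro x _ hx
        simp [hx.symm]
      · intro hx; exfalso; apply hx; rw [mem_Icc]; omega
    rw [h5, h6]
    ring
  · intro x hx
    rw [sum_eq_zero, mul_zero]
    intro v _
    rw [if_neg, zero_mul]
    exact fun ha => hx (adj_mem h ha).2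

/-- The one-step conditional law. -/
theorem lintegral_step (hT : IsRandomFriendTree P V W) {n : ℕ} (hn : 2 ≤ n)
    (G : (Fin n → ℕ) → ℕ → ℝ≥0∞) :
    ∫⁻ ω, G (hist W n ω) (W n ω) ∂P =
      ∫⁻ ω, (n : ℝ≥0∞)⁻¹ * EE (G (hist W n ω)) (sq (hist W n ω)) n ∂P := by
  classical
  have hmh := measurable_hist hT.measurable_W n
  have hm2 : Measurable (fun ω => (hist W n ω, W n ω)) := hmh.prodMk (hT.measurable_W n)
  have h1 : ∫⁻ ω, G (hist W n ω) (W n ω) ∂P =
      ∑' a : Fin n → ℕ, ∑' x : ℕ, G a x * P {ω | hist W n ω = a ∧ W n ω = x} := by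
    have h2 : ∫⁻ ω, G (hist W n ω) (W n ω) ∂P =
        ∫⁻ y, G y.1 y.2 ∂(P.map (fun ω => (hist W n ω, W n ω))) := by
      rw [lintegral_map (measurable_of_countable _) hm2]
    rw [h2, lintegral_countable', ENNReal.tsum_prod']
    refine tsum_congr fun a => tsum_congr fun x => ?_
    rw [Measure.map_apply hm2 (measurableSet_singleton _)]
    congr 2
    ext ω
    simp [Prod.ext_iff]
  have h3 : ∫⁻ ω, (n : ℝ≥0∞)⁻¹ * EE (G (hist W n ω)) (sq (hist W n ω)) n ∂P =
      ∑' a : Fin n → ℕ, ((n : ℝ≥0∞)⁻¹ * EE (G a) (sq a) n) * P {ω | hist W n ω = a} := by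
    have h2 : ∫⁻ ω, (n : ℝ≥0∞)⁻¹ * EE (G (hist W n ω)) (sq (hist W n ω)) n ∂P =
        ∫⁻ a, (n : ℝ≥0∞)⁻¹ * EE (G a) (sq a) n ∂(P.map (hist W n)) := by
      rw [lintegral_map (measurable_of_countable _) hmh]
    rw [h2, lintegral_countable']
    refine tsum_congr fun a => ?_
    rw [Measure.map_apply hmh (measurableSet_singleton _)]
    rfl
  rw [h1, h3]
  refine tsum_congr fun a => ?_
  by_cases ha : (∀ i : Fin n, (i : ℕ) = 0 → a i = 0) ∧ Valid (sq a) n
  · have h4 : ∀ x, P {ω | hist W n ω = a ∧ W n ω = x} =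
        P {ω | hist W n ω = a} * ∑' v : ℕ, (if v ∈ Icc 1 n ∧ (tree (sq a) n).Adj v x
          then (n : ℝ≥0∞)⁻¹ * (degree (sq a) n v : ℝ≥0∞)⁻¹ else 0) := by
      intro x
      have h5 : {ω | hist W n ω = a ∧ W n ω = x} =
          ⋃ v : ℕ, {ω | (∀ m, 1 ≤ m → m < n → W m ω = sq a m) ∧ V n ω = v ∧ W n ω = x} := by
        ext ω
        simp only [Set.mem_ofPred_eq, Set.mem_iUnion, hist_eq_iff ha.1]
        exact ⟨fun h => ⟨V n ω, h.1, rfl, h.2⟩, fun ⟨v, h, _, h'⟩ => ⟨h, h'⟩⟩
      have h6 : {ω | hist W n ω = a} = {ω | ∀ m, 1 ≤ m → m < n → W m ω = sq a m} := by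
        ext ω
        simp only [Set.mem_ofPred_eq, hist_eq_iff ha.1]
      rw [h5, measure_iUnion]
      · rw [h6, ← ENNReal.tsum_mul_left]
        exact tsum_congr fun v => hT.step n hn (sq a) v x
      · intro v v' hvv
        rw [Function.onFun, Set.disjoint_left]
        rintro ω ⟨_, h7, _⟩ ⟨_, h8, _⟩
        exact hvv (h7.symm.trans h8)
      · intro v
        rw [show {ω | (∀ m, 1 ≤ m → m < n → W m ω = sq a m) ∧ V n ω = v ∧ W n ω = x} =
          (hist W n ⁻¹' {a}) ∩ (V n ⁻¹' {v} ∩ W n ⁻¹' {x}) by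
            ext ω
            simp only [Set.mem_ofPred_eq, Set.mem_inter_iff, Set.mem_preimage,
              Set.mem_singleton_iff, hist_eq_iff ha.1]]
        exact (hmh (measurableSet_singleton _)).inter
          ((hT.measurable_V n (measurableSet_singleton _)).inter
            (hT.measurable_W n (measurableSet_singleton _)))
    simp only [h4]
    rw [← sum_kernel ha.2 (G a) (n : ℝ≥0∞)⁻¹, ← ENNReal.tsum_mul_right]
    refine tsum_congr fun x => ?_
    ring
  · have h4 : P {ω | hist W n ω = a} = 0 := by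
      have h5 := ae_valid hT
      refine measure_mono_null (t := {ω | ¬ ∀ n, Valid (fun m => W m ω) n}) ?_ (ae_iff.1 h5)
      intro ω hω hcon
      have hω' : hist W n ω = a := hω
      apply ha
      subst hω'
      refine ⟨fun i hi => ?_, (valid_sq_iff W n ω).2 (hcon n)⟩
      unfold hist; rw [if_pos hi]
    rw [h4, mul_zero]
    refine ENNReal.tsum_eq_zero.2 fun x => ?_
    rw [measure_mono_null (t := {ω | hist W n ω = a}) (fun ω hω => hω.1) h4, mul_zero]

end Q287.RF
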