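import Pool.Agent.Q287.RF.Prob

set_option autoImplicit false

/-!
# The random friend tree: expectations of the number of non-leaves
-/

open Finset MeasureTheory
open scoped ENNReal

namespace Q287.RF

variable {Ω : Type*} [MeasurableSpace Ω] {P : Measure Ω} {V W : ℕ → Ω → ℕ}

/-- The function depends only on `w 1, …, w (n - 1)`. -/
def Dep {α : Type*} (n : ℕ) (Φ : (ℕ → ℕ) → α) : Prop :=
  ∀ w w' : ℕ → ℕ, (∀ m, 1 ≤ m → m < n → w m = w' m) → Φ w = Φ w'

omit [MeasurableSpace Ω] in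
theorem Dep.eq {α : Type*} {n : ℕ} {Φ : (ℕ → ℕ) → α} (h : Dep n Φ) (W : ℕ → Ω → ℕ) (ω : Ω) :
    Φ (fun m => W m ω) = Φ (sq (hist W n ω)) :=
  h _ _ fun _ h1 h2 => (sq_hist W n ω h1 h2).symm

theorem Dep.measurable {α : Type*} [MeasurableSpace α] {n : ℕ} {Φ : (ℕ → ℕ) → α} (h : Dep n Φ)
    (hW : ∀ n, Measurable (W n)) : Measurable (fun ω => Φ (fun m => W m ω)) := by
  simp only [h.eq W]
  exact (measurable_of_countable (fun a : Fin n → ℕ => Φ (sq a))).comp (measurable_hist hW n)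

theorem dep_Xn (n : ℕ) : Dep n (fun w => (Xn w n : ℝ)) := by
  intro w w' h
  show (Xn w n : ℝ) = Xn w' n
  unfold Xn
  simp only [dg_congr h]

theorem dep_Yn (n : ℕ) : Dep n (fun w => (Yn w n : ℝ)) := by
  intro w w' h
  show (Yn w n : ℝ) = Yn w' n
  unfold Yn
  simp only [dg_congr h]

theorem dep_Hn (K n : ℕ) : Dep n (fun w => (Hn K w n : ℝ)) := by
  intro w w' h
  show (Hn K w n : ℝ) = Hn K w' n
  have : Hn K w n = Hn K w' n := by
    unfold Hn
    refine sum_congr rfl fun m hm => ?_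
    rw [mem_Ico] at hm
    rw [h m hm.1 hm.2]
  rw [this]

theorem dep_E {n : ℕ} {g : (ℕ → ℕ) → ℕ → ℝ} (hg : Dep n g) : Dep n (fun w => E (g w) w n) := by
  intro w w' h
  show E (g w) w n = E (g w') w' n
  rw [hg w w' h]
  unfold E
  refine sum_congr rfl fun m hm => ?_
  rw [mem_Ico] at hm
  rw [h m hm.1 hm.2, dg_congr h, dg_congr h]

theorem E_nonneg {g : ℕ → ℝ} (h0 : ∀ x, 0 ≤ g x) (w : ℕ → ℕ) (n : ℕ) : 0 ≤ E g w n := by
  unfold E
  exact sum_nonneg fun m _ => add_nonneg (div_nonneg (h0 _) (by positivity))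
    (div_nonneg (h0 _) (by positivity))

theorem E_le {g : ℕ → ℝ} (h1 : ∀ x, g x ≤ 1) (w : ℕ → ℕ) (n : ℕ) :
    E g w n ≤ 2 * n := by
  unfold E
  calc _ ≤ ∑ m ∈ Ico 1 n, (2 : ℝ) := by
        refine sum_le_sum fun m hm => ?_
        rw [mem_Ico] at hm
        have h2 := term_le (h1 (w m)) zero_le_one (dg_pos_child (w := w) hm.1 hm.2)
        have h3 := term_le (h1 (m + 1)) zero_le_one (dg_pos_parent (w := w) hm.1 hm.2)
        linarith
    _ ≤ 2 * n := by
        rw [sum_const, Nat.card_Ico, nsmul_eq_mul]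
        have : ((n - 1 : ℕ) : ℝ) ≤ n := by exact_mod_cast Nat.sub_le n 1
        linarith

theorem EE_ofReal {g : ℕ → ℝ} (h0 : ∀ x, 0 ≤ g x) (w : ℕ → ℕ) (n : ℕ) :
    EE (fun x => ENNReal.ofReal (g x)) w n = ENNReal.ofReal (E g w n) := by
  unfold EE E
  rw [ENNReal.ofReal_sum_of_nonneg]
  · refine sum_congr rfl fun m hm => ?_
    rw [mem_Ico] at hm
    have h2 := dg_pos_child (w := w) hm.1 hm.2
    have h3 := dg_pos_parent (w := w) hm.1 hm.2
    have h2' : (0 : ℝ) < dg w n (m + 1) := by exact_mod_cast h2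
    have h3' : (0 : ℝ) < dg w n (w m) := by exact_mod_cast h3
    rw [ENNReal.ofReal_add (div_nonneg (h0 _) h2'.le) (div_nonneg (h0 _) h3'.le),
      ENNReal.ofReal_div_of_pos h2', ENNReal.ofReal_div_of_pos h3', ENNReal.ofReal_natCast,
      ENNReal.ofReal_natCast, div_eq_mul_inv, div_eq_mul_inv]
  · intro m _
    exact add_nonneg (div_nonneg (h0 _) (by positivity)) (div_nonneg (h0 _) (by positivity))

theorem integrable_of_bdd [IsProbabilityMeasure P] {f : Ω → ℝ} (hf : Measurable f) (C : ℝ)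
    (h : ∀ ω, |f ω| ≤ C) : Integrable f P :=
  Integrable.of_bound hf.aestronglyMeasurable C (Filter.Eventually.of_forall fun ω => by
    rw [Real.norm_eq_abs]; exact h ω)

/-- The one-step conditional expectation in real form. -/
theorem real_step (hT : IsRandomFriendTree P V W) {n : ℕ} (hn : 2 ≤ n)
    (g : (ℕ → ℕ) → ℕ → ℝ) (hdep : Dep n g) (h0 : ∀ w x, 0 ≤ g w x)
    (B : Set (Fin n → ℕ)) :
    ∫ ω in (hist W n) ⁻¹' B, g (fun m => W m ω) (W n ω) ∂P =
      ∫ ω in (hist W n) ⁻¹' B, E (g (fun m => W m ω)) (fun m => W m ω) n / n ∂P := by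
  classical
  have hmh := measurable_hist hT.measurable_W n
  have hB : MeasurableSet ((hist W n) ⁻¹' B) := hmh (Set.to_countable B).measurableSet
  have hm1 : Measurable (fun ω => g (fun m => W m ω) (W n ω)) := by
    simp only [hdep.eq W]
    exact (measurable_of_countable (fun p : (Fin n → ℕ) × ℕ => g (sq p.1) p.2)).comp
      (hmh.prodMk (hT.measurable_W n))
  have hm2 : Measurable (fun ω => E (g (fun m => W m ω)) (fun m => W m ω) n / n) :=
    ((dep_E hdep).measurable hT.measurable_W).div_const _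
  rw [integral_eq_lintegral_of_nonneg_ae (Filter.Eventually.of_forall fun ω => h0 _ _)
    hm1.aestronglyMeasurable, integral_eq_lintegral_of_nonneg_ae
    (Filter.Eventually.of_forall fun ω => div_nonneg (E_nonneg (h0 _) _ _) (by positivity))
    hm2.aestronglyMeasurable]
  congr 1
  rw [← lintegral_indicator hB, ← lintegral_indicator hB]
  have h2 := lintegral_step hT hn (fun a x => B.indicator 1 a * ENNReal.ofReal (g (sq a) x))
  have h3 : ∀ ω, ((hist W n) ⁻¹' B).indicator (fun ω => ENNReal.ofReal (g (fun m => W m ω) (W n ω))) ω =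
      B.indicator 1 (hist W n ω) * ENNReal.ofReal (g (sq (hist W n ω)) (W n ω)) := by
    intro ω
    rw [← hdep.eq W]
    by_cases hc : hist W n ω ∈ B
    · rw [Set.indicator_of_mem (show ω ∈ hist W n ⁻¹' B from hc), Set.indicator_of_mem hc]; simp
    · rw [Set.indicator_of_notMem (show ω ∉ hist W n ⁻¹' B from hc), Set.indicator_of_notMem hc]; simp
  have h4 : ∀ ω, ((hist W n) ⁻¹' B).indicator
      (fun ω => ENNReal.ofReal (E (g (fun m => W m ω)) (fun m => W m ω) n / n)) ω =
      (n : ℝ≥0∞)⁻¹ * EE (fun x => B.indicator 1 (hist W n ω) * ENNReal.ofReal (g (sq (hist W n ω)) x))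
        (sq (hist W n ω)) n := by
    intro ω
    have hn0 : (0 : ℝ) < n := by positivity
    by_cases hc : hist W n ω ∈ B
    · rw [Set.indicator_of_mem (show ω ∈ hist W n ⁻¹' B from hc), Set.indicator_of_mem hc]
      simp only [Pi.one_apply, one_mul]
      rw [EE_ofReal (h0 _), ENNReal.ofReal_div_of_pos hn0, (dep_E hdep).eq W, ENNReal.ofReal_natCast,
        div_eq_mul_inv, mul_comm]
    · rw [Set.indicator_of_notMem (show ω ∉ hist W n ⁻¹' B from hc), Set.indicator_of_notMem hc]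
      simp [EE]
  simp only [h3, h4]
  exact h2

end Q287.RF
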