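import Pool.Agent.Q287.RF.Main

set_option autoImplicit false

/-!
# The random friend tree: recursions for the expectations
-/

open Finset MeasureTheory Filter Topology
open scoped ENNReal

namespace Q287.RF

variable {Ω : Type*} [mΩ : MeasurableSpace Ω] {P : Measure Ω} {V W : ℕ → Ω → ℕ}

/-- expected number of non-leaves -/
noncomputable def xe (P : Measure Ω) (W : ℕ → Ω → ℕ) (n : ℕ) : ℝ := ∫ ω, (Xn (fun m => W m ω) n : ℝ) ∂P

/-- expected number of vertices of degree two -/
noncomputable def ye (P : Measure Ω) (W : ℕ → Ω → ℕ) (n : ℕ) : ℝ := ∫ ω, (Yn (fun m => W m ω) n : ℝ) ∂P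

/-- expected number of vertices with a late parent -/
noncomputable def he (P : Measure Ω) (W : ℕ → Ω → ℕ) (K n : ℕ) : ℝ := ∫ ω, (Hn K (fun m => W m ω) n : ℝ) ∂P

/-- probability that `W n` has degree `j` -/
noncomputable def pe (P : Measure Ω) (W : ℕ → Ω → ℕ) (j n : ℕ) : ℝ :=
  ∫ ω, (if dg (fun m => W m ω) n (W n ω) = j then (1 : ℝ) else 0) ∂P

/-- probability that `W n` is late -/
noncomputable def qe (P : Measure Ω) (W : ℕ → Ω → ℕ) (K n : ℕ) : ℝ :=
  ∫ ω, (if K < W n ω then (1 : ℝ) else 0) ∂P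

theorem real_step_univ (hT : IsRandomFriendTree P V W) {n : ℕ} (hn : 2 ≤ n)
    (g : (ℕ → ℕ) → ℕ → ℝ) (hdep : Dep n g) (h0 : ∀ w x, 0 ≤ g w x) :
    n * ∫ ω, g (fun m => W m ω) (W n ω) ∂P = ∫ ω, E (g (fun m => W m ω)) (fun m => W m ω) n ∂P := by
  have h1 := real_step hT hn g hdep h0 Set.univ
  rw [Set.preimage_univ, setIntegral_univ, setIntegral_univ, integral_div] at h1
  rw [h1]
  have : (0 : ℝ) < n := by positivity
  field_simp

theorem intX (hT : IsRandomFriendTree P V W) (n : ℕ) :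
    Integrable (fun ω => (Xn (fun m => W m ω) n : ℝ)) P := by
  have hP := hT.isProbabilityMeasure
  refine integrable_of_bdd ((dep_Xn n).measurable hT.measurable_W) n fun ω => ?_
  rw [abs_of_nonneg (by positivity)]
  exact_mod_cast Xn_le _ _

theorem intY (hT : IsRandomFriendTree P V W) (n : ℕ) :
    Integrable (fun ω => (Yn (fun m => W m ω) n : ℝ)) P := by
  have hP := hT.isProbabilityMeasure
  refine integrable_of_bdd ((dep_Yn n).measurable hT.measurable_W) n fun ω => ?_
  rw [abs_of_nonneg (by positivity)]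
  exact_mod_cast (Yn_le_Xn _ _).trans (Xn_le _ _)

theorem intH (hT : IsRandomFriendTree P V W) (K n : ℕ) :
    Integrable (fun ω => (Hn K (fun m => W m ω) n : ℝ)) P := by
  have hP := hT.isProbabilityMeasure
  refine integrable_of_bdd ((dep_Hn K n).measurable hT.measurable_W) n fun ω => ?_
  rw [abs_of_nonneg (by positivity)]
  exact_mod_cast Hn_le _ _ _

/-- indicator that `x` has degree `j` -/
noncomputable def gi (j n : ℕ) (w : ℕ → ℕ) (x : ℕ) : ℝ := if dg w n x = j then 1 else 0

/-- indicator that `x` is late -/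
noncomputable def gl (K : ℕ) (_ : ℕ → ℕ) (x : ℕ) : ℝ := if K < x then 1 else 0

theorem gi_nonneg (j n : ℕ) (w : ℕ → ℕ) (x : ℕ) : 0 ≤ gi j n w x := by
  unfold gi; split_ifs <;> norm_num

theorem gi_le (j n : ℕ) (w : ℕ → ℕ) (x : ℕ) : gi j n w x ≤ 1 := by
  unfold gi; split_ifs <;> norm_num

theorem gl_nonneg (K : ℕ) (w : ℕ → ℕ) (x : ℕ) : 0 ≤ gl K w x := by
  unfold gl; split_ifs <;> norm_num

theorem gl_le (K : ℕ) (w : ℕ → ℕ) (x : ℕ) : gl K w x ≤ 1 := by
  unfold gl; split_ifs <;> norm_num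

theorem dep_gl (K n : ℕ) : Dep n (gl K) := fun _ _ _ => rfl

theorem dep_ind (j n : ℕ) : Dep n (gi j n) := by
  intro w w' h
  funext x
  show (if dg w n x = j then (1 : ℝ) else 0) = if dg w' n x = j then (1 : ℝ) else 0
  rw [dg_congr h]

theorem intP (hT : IsRandomFriendTree P V W) (j n : ℕ) :
    Integrable (fun ω => (if dg (fun m => W m ω) n (W n ω) = j then (1 : ℝ) else 0)) P := by
  have hP := hT.isProbabilityMeasure
  refine integrable_of_bdd ?_ 1 fun ω => by split_ifs <;> norm_num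
  have h1 : (fun ω => (if dg (fun m => W m ω) n (W n ω) = j then (1 : ℝ) else 0)) =
      (fun p : (Fin n → ℕ) × ℕ => (if dg (sq p.1) n p.2 = j then (1 : ℝ) else 0)) ∘
        (fun ω => (hist W n ω, W n ω)) := by
    funext ω
    exact congrFun ((dep_ind j n).eq W ω) (W n ω)
  rw [h1]
  exact (measurable_of_countable _).comp
      ((measurable_hist hT.measurable_W n).prodMk (hT.measurable_W n))

theorem intQ (hT : IsRandomFriendTree P V W) (K n : ℕ) :
    Integrable (fun ω => (if K < W n ω then (1 : ℝ) else 0)) P := by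
  have hP := hT.isProbabilityMeasure
  refine integrable_of_bdd ?_ 1 fun ω => by split_ifs <;> norm_num
  exact (measurable_of_countable (fun x : ℕ => if K < x then (1 : ℝ) else 0)).comp
    (hT.measurable_W n)

theorem intE (hT : IsRandomFriendTree P V W) (n : ℕ) {g : (ℕ → ℕ) → ℕ → ℝ} (hdep : Dep n g)
    (h0 : ∀ w x, 0 ≤ g w x) (h1 : ∀ w x, g w x ≤ 1) :
    Integrable (fun ω => E (g (fun m => W m ω)) (fun m => W m ω) n) P := by
  have hP := hT.isProbabilityMeasure
  refine integrable_of_bdd ((dep_E hdep).measurable hT.measurable_W) (2 * n) fun ω => ?_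
  rw [abs_of_nonneg (E_nonneg (h0 _) _ _)]
  exact E_le (h1 _) _ _

theorem pe_one_le (hT : IsRandomFriendTree P V W) {n : ℕ} (hn : 2 ≤ n) :
    n * pe P W 1 n ≤ 2 + xe P W n - ye P W n / 2 := by
  have hP := hT.isProbabilityMeasure
  have h1 := real_step_univ hT hn _ (dep_ind 1 n) (gi_nonneg 1 n)
  have i1 : Integrable (fun ω => 2 + (Xn (fun m => W m ω) n : ℝ)) P :=
    (integrable_const _).add (intX hT n)
  have i2 : Integrable (fun ω => (Yn (fun m => W m ω) n : ℝ) / 2) P := (intY hT n).div_const _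
  have i3 : Integrable (fun ω => 2 + (Xn (fun m => W m ω) n : ℝ) - (Yn (fun m => W m ω) n : ℝ) / 2) P :=
    i1.sub i2
  have h2 : ∫ ω, E (gi 1 n (fun m => W m ω)) (fun m => W m ω) n ∂P ≤
      ∫ ω, (2 + (Xn (fun m => W m ω) n : ℝ) - (Yn (fun m => W m ω) n : ℝ) / 2) ∂P := by
    refine integral_mono_ae (intE hT n (dep_ind 1 n) (gi_nonneg 1 n) (gi_le 1 n)) i3 ?_
    filter_upwards [ae_valid hT] with ω hω
    exact E_leaf (hω n) (by omega)
  have h3 : ∫ ω, (2 + (Xn (fun m => W m ω) n : ℝ) - (Yn (fun m => W m ω) n : ℝ) / 2) ∂P =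
      2 + xe P W n - ye P W n / 2 := by
    rw [integral_sub i1 i2, integral_add (integrable_const _) (intX hT n), integral_div]
    simp [xe, ye]
  rw [← h3]
  exact le_trans (le_of_eq h1) h2

theorem pe_two_le (hT : IsRandomFriendTree P V W) {n : ℕ} (hn : 2 ≤ n) :
    n * pe P W 2 n ≤ 2 + 3 / 2 * ye P W n := by
  have hP := hT.isProbabilityMeasure
  have h1 := real_step_univ hT hn _ (dep_ind 2 n) (gi_nonneg 2 n)
  have i2 : Integrable (fun ω => 3 / 2 * (Yn (fun m => W m ω) n : ℝ)) P := (intY hT n).const_mul _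
  have i3 : Integrable (fun ω => 2 + 3 / 2 * (Yn (fun m => W m ω) n : ℝ)) P :=
    (integrable_const _).add i2
  have h2 : ∫ ω, E (gi 2 n (fun m => W m ω)) (fun m => W m ω) n ∂P ≤
      ∫ ω, (2 + 3 / 2 * (Yn (fun m => W m ω) n : ℝ)) ∂P := by
    refine integral_mono_ae (intE hT n (dep_ind 2 n) (gi_nonneg 2 n) (gi_le 2 n)) i3 ?_
    filter_upwards [ae_valid hT] with ω hω
    exact E_two (hω n) (by omega)
  have h3 : ∫ ω, (2 + 3 / 2 * (Yn (fun m => W m ω) n : ℝ)) ∂P = 2 + 3 / 2 * ye P W n := by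
    rw [integral_add (integrable_const _) i2, integral_const_mul]
    simp [ye]
  rw [← h3]
  exact le_trans (le_of_eq h1) h2

theorem qe_le (hT : IsRandomFriendTree P V W) {n : ℕ} (hn : 2 ≤ n) (K : ℕ) :
    n * qe P W K n ≤ he P W K n + xe P W n + 1 := by
  have hP := hT.isProbabilityMeasure
  have h1 := real_step_univ hT hn _ (dep_gl K n) (gl_nonneg K)
  have i1 : Integrable (fun ω => (Hn K (fun m => W m ω) n : ℝ) + (Xn (fun m => W m ω) n : ℝ)) P :=
    (intH hT K n).add (intX hT n)
  have i3 : Integrable (fun ω => (Hn K (fun m => W m ω) n : ℝ) + (Xn (fun m => W m ω) n : ℝ) + 1) P :=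
    i1.add (integrable_const _)
  have h2 : ∫ ω, E (gl K (fun m => W m ω)) (fun m => W m ω) n ∂P ≤
      ∫ ω, ((Hn K (fun m => W m ω) n : ℝ) + (Xn (fun m => W m ω) n : ℝ) + 1) ∂P := by
    refine integral_mono_ae (intE hT n (dep_gl K n) (gl_nonneg K) (gl_le K)) i3 ?_
    filter_upwards [ae_valid hT] with ω hω
    exact E_late (hω n) (by omega) K
  have h3 : ∫ ω, ((Hn K (fun m => W m ω) n : ℝ) + (Xn (fun m => W m ω) n : ℝ) + 1) ∂P =
      he P W K n + xe P W n + 1 := by
    rw [integral_add i1 (integrable_const _), integral_add (intH hT K n) (intX hT n)]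
    simp [he, xe]
  rw [← h3]
  exact le_trans (le_of_eq h1) h2

theorem xe_succ (hT : IsRandomFriendTree P V W) {n : ℕ} (hn : 2 ≤ n) :
    xe P W (n + 1) = xe P W n + pe P W 1 n := by
  unfold xe pe
  rw [← integral_add (intX hT n) (intP hT 1 n)]
  refine integral_congr_ae ?_
  filter_upwards [ae_valid hT] with ω hω
  rw [Xn_succ (hω (n + 1)) hn]
  push_cast
  rfl

theorem ye_succ (hT : IsRandomFriendTree P V W) {n : ℕ} (hn : 2 ≤ n) :
    ye P W (n + 1) + pe P W 2 n = ye P W n + pe P W 1 n := by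
  unfold ye pe
  rw [← integral_add (intY hT n) (intP hT 1 n), ← integral_add (intY hT (n + 1)) (intP hT 2 n)]
  refine integral_congr_ae ?_
  filter_upwards [ae_valid hT] with ω hω
  have := Yn_succ (hω (n + 1)) hn
  have h2 := congrArg (fun k : ℕ => (k : ℝ)) this
  push_cast at h2
  exact h2

theorem he_succ (hT : IsRandomFriendTree P V W) (K : ℕ) {n : ℕ} (hn : 2 ≤ n) :
    he P W K (n + 1) = he P W K n + qe P W K n := by
  unfold he qe
  rw [← integral_add (intH hT K n) (intQ hT K n)]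
  refine integral_congr_ae ?_
  filter_upwards [ae_valid hT] with ω hω
  rw [Hn_succ K _ (by omega)]
  push_cast
  rfl

theorem xe_nonneg (n : ℕ) : 0 ≤ xe P W n := integral_nonneg fun ω => by positivity
theorem ye_nonneg (n : ℕ) : 0 ≤ ye P W n := integral_nonneg fun ω => by positivity
theorem he_nonneg (K n : ℕ) : 0 ≤ he P W K n := integral_nonneg fun ω => by positivity

theorem ye_le_xe (hT : IsRandomFriendTree P V W) (n : ℕ) : ye P W n ≤ xe P W n :=
  integral_mono (intY hT n) (intX hT n) fun ω => by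
    show (Yn _ n : ℝ) ≤ Xn _ n
    exact_mod_cast Yn_le_Xn _ _

/-- The combination of the expectations used in the proof. -/
noncomputable def ve (P : Measure Ω) (W : ℕ → Ω → ℕ) (n : ℕ) : ℝ := xe P W n - ye P W n / 6 + 12 / 5

theorem ve_pos (hT : IsRandomFriendTree P V W) (n : ℕ) : 0 < ve P W n := by
  unfold ve
  have h1 := ye_le_xe hT n
  have h2 := ye_nonneg (P := P) (W := W) n
  linarith

theorem ve_step (hT : IsRandomFriendTree P V W) {n : ℕ} (hn : 2 ≤ n) :
    n * (ve P W (n + 1) - ve P W n) ≤ 5 / 6 * ve P W n := by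
  have h1 := pe_one_le hT hn
  have h2 := pe_two_le hT hn
  have h3 := xe_succ hT hn
  have h4 := ye_succ hT hn
  have h5 := ye_nonneg (P := P) (W := W) n
  have h6 : ve P W (n + 1) - ve P W n = 5 / 6 * pe P W 1 n + 1 / 6 * pe P W 2 n := by
    unfold ve; linarith
  rw [h6]
  unfold ve
  have h7 : (n : ℝ) * (5 / 6 * pe P W 1 n + 1 / 6 * pe P W 2 n) =
    5 / 6 * (n * pe P W 1 n) + 1 / 6 * (n * pe P W 2 n) := by ring
  rw [h7]
  linarith

/-- `v n / n`. -/
noncomputable def ue (P : Measure Ω) (W : ℕ → Ω → ℕ) (n : ℕ) : ℝ := ve P W n / n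

theorem ue_pos (hT : IsRandomFriendTree P V W) {n : ℕ} (hn : 2 ≤ n) : 0 < ue P W n :=
  div_pos (ve_pos hT n) (by positivity)

theorem ue_step (hT : IsRandomFriendTree P V W) {n : ℕ} (hn : 2 ≤ n) :
    ue P W n / (6 * (n + 1)) ≤ ue P W n - ue P W (n + 1) := by
  have h1 := ve_step hT hn
  have hn0 : (0 : ℝ) < n := by positivity
  unfold ue
  push_cast
  rw [← sub_nonneg]
  have h2 : ve P W n / n - ve P W (n + 1) / (n + 1) - ve P W n / n / (6 * (n + 1)) =
      (5 / 6 * ve P W n - n * (ve P W (n + 1) - ve P W n)) / (n * (n + 1)) := by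
    field_simp
    ring
  rw [h2]
  exact div_nonneg (by linarith) (by positivity)

theorem ue_antitone (hT : IsRandomFriendTree P V W) {n : ℕ} (hn : 2 ≤ n) :
    ue P W (n + 1) ≤ ue P W n := by
  have h1 := ue_step hT hn
  have h2 : 0 ≤ ue P W n / (6 * (n + 1)) := div_nonneg (ue_pos hT hn).le (by positivity)
  linarith

theorem ue_tendsto (hT : IsRandomFriendTree P V W) : Tendsto (ue P W) atTop (𝓝 0) := by
  have hanti : Antitone (fun k => ue P W (k + 2)) :=
    antitone_nat_of_succ_le fun k => ue_antitone hT (by omega)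
  have hbdd : BddBelow (Set.range (fun k => ue P W (k + 2))) :=
    ⟨0, by rintro _ ⟨k, rfl⟩; exact (ue_pos hT (by omega)).le⟩
  have hlim := tendsto_atTop_ciInf hanti hbdd
  set L := ⨅ k, ue P W (k + 2) with hL
  have hL0 : 0 ≤ L := le_ciInf fun k => (ue_pos hT (by omega)).le
  have hLk : ∀ k, L ≤ ue P W (k + 2) := fun k => ciInf_le hbdd k
  have hLz : L = 0 := by
    by_contra hne
    have hLpos : 0 < L := lt_of_le_of_ne hL0 (Ne.symm hne)
    -- telescoping
    have h1 : ∀ N : ℕ, ∑ k ∈ range N, L / (6 * ((k : ℝ) + 3)) ≤ ue P W 2 - ue P W (N + 2) := by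
      intro N
      induction N with
      | zero => simp
      | succ N ih =>
        rw [sum_range_succ]
        have h2 := ue_step hT (n := N + 2) (by omega)
        have h3 : L / (6 * ((N : ℝ) + 3)) ≤ ue P W (N + 2) / (6 * (((N + 2 : ℕ) : ℝ) + 1)) := by
          push_cast
          rw [show (N : ℝ) + 2 + 1 = N + 3 by ring]
          exact div_le_div_of_nonneg_right (hLk N) (by positivity)
        have h4 : N + 1 + 2 = N + 2 + 1 := by omega
        rw [h4]
        linarith
    have h2 : Tendsto (fun N : ℕ => ∑ k ∈ range N, L / (6 * ((k : ℝ) + 3))) atTop atTop := by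
      have h3 : ∀ k : ℕ, L / 18 * (1 / ((k : ℝ) + 1)) ≤ L / (6 * ((k : ℝ) + 3)) := by
        intro k
        rw [div_mul_div_comm, mul_one, div_le_div_iff₀ (by positivity) (by positivity)]
        nlinarith [(Nat.cast_nonneg k : (0 : ℝ) ≤ k)]
      refine tendsto_atTop_mono (f := fun N : ℕ => L / 18 * ∑ k ∈ range N, 1 / ((k : ℝ) + 1)) ?_ ?_
      · intro N
        rw [mul_sum]
        exact sum_le_sum fun k _ => h3 k
      · exact Real.tendsto_sum_range_one_div_nat_succ_atTop.const_mul_atTop (by positivity)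
    obtain ⟨N, hN⟩ := (h2.eventually (eventually_gt_atTop (ue P W 2))).exists
    have h3 := h1 N
    have h4 := ue_pos hT (n := N + 2) (by omega)
    linarith
  rw [hLz] at hlim
  exact (tendsto_add_atTop_iff_nat 2).1 hlim

theorem he_self (hT : IsRandomFriendTree P V W) (K : ℕ) : he P W K K = 0 := by
  unfold he
  rw [integral_eq_zero_of_ae]
  filter_upwards [ae_valid hT] with ω hω
  rw [Hn_self (hω K)]
  simp

/-- The bound for the mass of the vertices with a late parent. -/
theorem he_le (hT : IsRandomFriendTree P V W) {K : ℕ} (hK : 2 ≤ K) {n : ℕ} (hn : K ≤ n) :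
    he P W K n / n ≤ 36 / 5 * (ue P W K - ue P W n) := by
  induction n, hn using Nat.le_induction with
  | base => rw [he_self hT, zero_div, sub_self, mul_zero]
  | succ n hn ih =>
    have h2 : 2 ≤ n := by omega
    have hn0 : (0 : ℝ) < n := by positivity
    have h3 := qe_le hT h2 K
    have h4 := ue_step hT h2
    rw [he_succ hT K h2]
    have h5 : (he P W K n + qe P W K n) / ((n + 1 : ℕ) : ℝ) ≤
        he P W K n / n + (xe P W n + 1) / (n * (n + 1)) := by
      push_cast
      rw [div_add_div _ _ hn0.ne' (by positivity), div_le_div_iff₀ (by positivity) (by positivity)]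
      have h6 : 0 ≤ (he P W K n + xe P W n + 1 - n * qe P W K n) * (n * (n + 1)) :=
        mul_nonneg (by linarith) (by positivity)
      nlinarith
    have h6 : (xe P W n + 1) / (n * (n + 1)) ≤ 36 / 5 * (ue P W n / (6 * (n + 1))) := by
      unfold ue ve
      have h7 := ye_le_xe hT n
      rw [div_div, mul_div_assoc', div_le_div_iff₀ (by positivity) (by positivity)]
      have h8 : 0 ≤ (36 / 5 * (xe P W n - ye P W n / 6 + 12 / 5) - 6 * (xe P W n + 1)) * (n * (n + 1)) :=
        mul_nonneg (by linarith) (by positivity)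
      nlinarith
    linarith

end Q287.RF
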